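import Mathlib
import Pool.Agent.T2H12.KD.Main

/-!
# Choosing a fibre (package FIBRE)
-/

set_option autoImplicit false

namespace Pool.Agent.T2H12.KO

open Finset
open scoped Classical
open Pool.Agent.Y359.PE Pool.Agent.T2H12.KF Pool.Agent.T2H12.KD

/-- **A good fibre.** -/
theorem fibre {α Ω τ β γ : Type} (A : Finset α) (S : Finset Ω) (hA : A.Nonempty)
    (hS : S.Nonempty) (T : Ω → τ) (F : α × Ω → β) (G : Ω → γ) {L : ℝ}
    (hL : ce (A ×ˢ S) (fun s => T s.2) F - ce S T G ≤ L) :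
    ∃ B ⊆ S, B.Nonempty ∧ h (A ×ˢ B) F - h B G ≤ L := by
  have hAc : (0 : ℝ) < A.card := by exact_mod_cast card_pos.2 hA
  have hSc : (0 : ℝ) < S.card := by exact_mod_cast card_pos.2 hS
  have hcl : ∀ s ∈ A ×ˢ S, cl (A ×ˢ S) (fun s => T s.2) s = A ×ˢ cl S T s.2 := by
    intro s _
    ext x
    rw [mem_cl, mem_product, mem_product, mem_cl]
    tauto
  have h1 : (S.card : ℝ) * ce (A ×ˢ S) (fun s => T s.2) F = ∑ y ∈ S, h (A ×ˢ cl S T y) F := by
    unfold ce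
    rw [chain (A ×ˢ S) (fun s => T s.2) F,
      sum_congr rfl (fun s hs => by rw [hcl s hs]), card_product]
    rw [sum_product (f := fun s : α × Ω => h (A ×ˢ cl S T s.2) F)]
    simp only [sum_const, nsmul_eq_mul]
    push_cast
    field_simp
  have h2 : (S.card : ℝ) * ce S T G = ∑ y ∈ S, h (cl S T y) G := by
    unfold ce
    rw [chain S T G, mul_div_cancel₀ _ hSc.ne']
  have h3 : ∑ y ∈ S, (h (A ×ˢ cl S T y) F - h (cl S T y) G) ≤ ∑ _y ∈ S, L := by
    rw [sum_sub_distrib, ← h1, ← h2, sum_const, nsmul_eq_mul, ← mul_sub]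
    exact mul_le_mul_of_nonneg_left hL hSc.le
  obtain ⟨y, hy, h4⟩ := exists_le_of_sum_le hS h3
  exact ⟨cl S T y, filter_subset _ _, ⟨y, mem_cl.2 ⟨hy, rfl⟩⟩, h4⟩

end Pool.Agent.T2H12.KO
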