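import Mathlib

/-!
# The covering lemma for many good pairs (package COVER2)
-/

set_option autoImplicit false

namespace Pool.Agent.T2H12.KO

open Finset
open scoped Classical

/-- The greedy choice. -/
theorem cover2_aux {α M ρ : Type} [AddCommGroup M] (A : Finset α) (s : α → M) (W : Finset M)
    (G : M → M → Prop) (d : ℝ) (hd : 0 < d)
    (hdeg : ∀ a ∈ A, d ≤ ((W.filter fun w => G (s a) w).card : ℝ))
    (sig : ρ → M) (X : Finset ρ) :
    ∀ U : Finset α, U ⊆ A → ∃ J : Finset M,
      2 * ((U.filter fun a => ∀ D ∈ J, ¬ (D - s a ∈ W ∧ G (s a) (D - s a))).card : ℝ) ≤ A.card ∧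
      ((∑ D ∈ J, (X.filter fun x => sig x = D).card : ℕ) : ℝ) * (A.card * d) +
        2 * X.card * ((U.filter fun a => ∀ D ∈ J, ¬ (D - s a ∈ W ∧ G (s a) (D - s a))).card : ℝ) ≤
        2 * X.card * U.card := by
  intro U
  induction U using Finset.strongInduction with
  | H U ih =>
    intro hUA
    by_cases hU : 2 * (U.card : ℝ) ≤ A.card
    · refine ⟨∅, ?_, ?_⟩
      · simpa using hU
      · simp
    · push Not at hU
      have hUne : U.Nonempty := by
        rw [← Finset.card_pos]
        by_contra h0
        have h1 : U.card = 0 := by omega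
        rw [h1] at hU
        have : (0 : ℝ) ≤ A.card := Nat.cast_nonneg _
        simp at hU
        linarith
      set P : Finset (α × M) := (U ×ˢ W).filter fun p => G (s p.1) p.2 with hP
      set T : Finset M := P.image (fun p => s p.1 + p.2) with hT
      set c : M → ℕ := fun D => (U.filter fun a => D - s a ∈ W ∧ G (s a) (D - s a)).card with hc
      set x : M → ℕ := fun D => (X.filter fun y => sig y = D).card with hx
      have hPcard : d * U.card ≤ (P.card : ℝ) := by
        have h1 : P.card = ∑ a ∈ U, (W.filter fun w => G (s a) w).card := by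
          rw [Finset.card_eq_sum_card_fiberwise (f := fun p : α × M => p.1) (t := U)
            (fun p hp => (Finset.mem_product.1 (Finset.mem_filter.1 hp).1).1)]
          refine Finset.sum_congr rfl fun a ha => ?_
          refine Finset.card_nbij' (fun p => p.2) (fun w => (a, w)) ?_ ?_ ?_ ?_
          · rintro ⟨a', w⟩ hp
            simp only [hP, Finset.coe_filter, Finset.mem_filter, Finset.mem_product,
              Set.mem_ofPred_eq] at hp
            obtain ⟨⟨⟨_, h2⟩, h3⟩, rfl⟩ := hp
            simp only [Finset.coe_filter, Set.mem_ofPred_eq]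
            exact ⟨h2, h3⟩
          · intro w hw
            simp only [Finset.coe_filter, Set.mem_ofPred_eq] at hw
            simp only [hP, Finset.coe_filter, Finset.mem_filter, Finset.mem_product,
              Set.mem_ofPred_eq]
            exact ⟨⟨⟨ha, hw.1⟩, hw.2⟩, trivial⟩
          · rintro ⟨a', w⟩ hp
            simp only [hP, Finset.coe_filter, Finset.mem_filter, Finset.mem_product,
              Set.mem_ofPred_eq] at hp
            obtain ⟨_, rfl⟩ := hp
            rfl
          · intro w _
            rfl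
        rw [h1]
        push_cast
        calc d * U.card = ∑ _a ∈ U, d := by rw [Finset.sum_const, nsmul_eq_mul, mul_comm]
          _ ≤ _ := Finset.sum_le_sum fun a ha => hdeg a (hUA ha)
      have hsum : ∑ D ∈ T, c D = P.card := by
        rw [Finset.card_eq_sum_card_image (fun p : α × M => s p.1 + p.2) P]
        refine Finset.sum_congr rfl fun D _ => ?_
        refine Finset.card_nbij' (fun a => (a, D - s a)) (fun p => p.1) ?_ ?_ ?_ ?_
        · intro a ha
          simp only [Finset.coe_filter, Set.mem_ofPred_eq] at ha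
          simp only [hP, Finset.coe_filter, Finset.mem_filter, Finset.mem_product, Set.mem_ofPred_eq]
          exact ⟨⟨⟨ha.1, ha.2.1⟩, ha.2.2⟩, by abel⟩
        · rintro ⟨a, w⟩ hp
          simp only [hP, Finset.coe_filter, Finset.mem_filter, Finset.mem_product,
            Set.mem_ofPred_eq] at hp
          simp only [Finset.coe_filter, Set.mem_ofPred_eq]
          refine ⟨hp.1.1.1, ?_⟩
          rw [← hp.2, add_sub_cancel_left]
          exact ⟨hp.1.1.2, hp.1.2⟩
        · intro a _
          rfl
        · rintro ⟨a, w⟩ hp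
          simp only [hP, Finset.coe_filter, Finset.mem_filter, Finset.mem_product,
            Set.mem_ofPred_eq] at hp
          simp only [Prod.mk.injEq, true_and]
          rw [← hp.2, add_sub_cancel_left]
      have hxs : ∑ D ∈ T, x D ≤ X.card := by
        have h1 : ∑ D ∈ T, x D = (T.biUnion fun D => X.filter fun y => sig y = D).card := by
          rw [Finset.card_biUnion]
          intro D _ D' _ hne
          rw [Function.onFun, Finset.disjoint_left]
          intro y hy hy'
          rw [Finset.mem_filter] at hy hy'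
          exact hne (hy.2.symm.trans hy'.2)
        rw [h1]
        apply Finset.card_le_card
        intro y hy
        rw [Finset.mem_biUnion] at hy
        obtain ⟨D, _, hy⟩ := hy
        exact (Finset.mem_filter.1 hy).1
      have hUpos : (0 : ℝ) < U.card := by exact_mod_cast hUne.card_pos
      have hPne : P.Nonempty := by
        rw [← Finset.card_pos]
        have h1 : (0 : ℝ) < P.card := lt_of_lt_of_le (by positivity) hPcard
        exact_mod_cast h1
      have hTne : T.Nonempty := hPne.image _
      obtain ⟨D, hDT, hD⟩ : ∃ D ∈ T, (x D : ℝ) * (U.card * d) ≤ X.card * c D := by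
        by_contra hcon
        push Not at hcon
        have h1 := Finset.sum_lt_sum_of_nonempty hTne hcon
        rw [← Finset.mul_sum, ← Finset.sum_mul] at h1
        have h2 : (∑ D ∈ T, (c D : ℝ)) = P.card := by exact_mod_cast congrArg (Nat.cast (R := ℝ)) hsum
        have h3 : (∑ D ∈ T, (x D : ℝ)) ≤ X.card := by exact_mod_cast hxs
        rw [h2] at h1
        have h4 : (X.card : ℝ) * (d * U.card) ≤ X.card * P.card :=
          mul_le_mul_of_nonneg_left hPcard (Nat.cast_nonneg _)
        have h5 : (∑ D ∈ T, (x D : ℝ)) * (U.card * d) ≤ X.card * (U.card * d) :=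
          mul_le_mul_of_nonneg_right h3 (by positivity)
        nlinarith
      have hcpos : ∃ a ∈ U, D - s a ∈ W ∧ G (s a) (D - s a) := by
        rw [hT, Finset.mem_image] at hDT
        obtain ⟨⟨a, w⟩, hp, hD'⟩ := hDT
        simp only [hP, Finset.mem_filter, Finset.mem_product] at hp
        refine ⟨a, hp.1.1, ?_⟩
        rw [← hD', add_sub_cancel_left]
        exact ⟨hp.1.2, hp.2⟩
      set U' := U.filter fun a => ¬ (D - s a ∈ W ∧ G (s a) (D - s a)) with hU'
      have hss : U' ⊂ U := by
        obtain ⟨a, ha, haD⟩ := hcpos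
        rw [Finset.ssubset_iff_of_subset (Finset.filter_subset _ _)]
        refine ⟨a, ha, ?_⟩
        intro h
        exact (Finset.mem_filter.1 h).2 haD
      have hcard : c D + U'.card = U.card := Finset.card_filter_add_card_filter_not _
      obtain ⟨J', h1, h2⟩ := ih U' hss ((Finset.filter_subset _ _).trans hUA)
      have hUnc : (U.filter fun a => ∀ E ∈ insert D J', ¬ (E - s a ∈ W ∧ G (s a) (E - s a))) =
          U'.filter fun a => ∀ E ∈ J', ¬ (E - s a ∈ W ∧ G (s a) (E - s a)) := by
        ext a
        simp only [hU', Finset.mem_filter, Finset.mem_insert, forall_eq_or_imp]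
        tauto
      refine ⟨insert D J', ?_, ?_⟩
      · rw [hUnc]
        exact h1
      · rw [hUnc]
        have h3 : ((∑ E ∈ insert D J', x E : ℕ) : ℝ) ≤ x D + ((∑ E ∈ J', x E : ℕ) : ℝ) := by
          by_cases hm : D ∈ J'
          · rw [Finset.insert_eq_of_mem hm]
            have : (0 : ℝ) ≤ x D := Nat.cast_nonneg _
            linarith
          · rw [Finset.sum_insert hm]
            push_cast
            exact le_rfl
        have h4 : (x D : ℝ) * (A.card * d) ≤ 2 * (X.card * c D) := by
          calc (x D : ℝ) * (A.card * d) ≤ x D * ((2 * U.card) * d) := by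
                apply mul_le_mul_of_nonneg_left _ (Nat.cast_nonneg _)
                exact mul_le_mul_of_nonneg_right hU.le hd.le
            _ = 2 * (x D * (U.card * d)) := by ring
            _ ≤ 2 * (X.card * c D) := by linarith
        have h5 : ((∑ E ∈ insert D J', x E : ℕ) : ℝ) * (A.card * d) ≤
            (x D + ((∑ E ∈ J', x E : ℕ) : ℝ)) * (A.card * d) :=
          mul_le_mul_of_nonneg_right h3 (by positivity)
        have hcard' : (c D : ℝ) + U'.card = U.card := by exact_mod_cast hcard
        have h6 : 2 * (X.card : ℝ) * U.card = 2 * (X.card * c D) + 2 * X.card * U'.card := by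
          rw [← hcard']
          ring
        rw [h6]
        have h2' : ((∑ E ∈ J', x E : ℕ) : ℝ) * (A.card * d) +
          2 * X.card * ((U'.filter fun a => ∀ D ∈ J', ¬ (D - s a ∈ W ∧ G (s a) (D - s a))).card : ℝ) ≤
            2 * X.card * U'.card := h2
        show ((∑ E ∈ insert D J', x E : ℕ) : ℝ) * (A.card * d) + _ ≤ _
        linarith

/-- **The covering lemma.** -/
theorem cover2 {α M ρ : Type} [AddCommGroup M] (A : Finset α) (s : α → M) (W : Finset M)
    (E : Finset (α × M)) (hE : E ⊆ A ×ˢ W) (f : α → M → ρ) (sig : ρ → M) (hA : A.Nonempty)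
    (hW : W.Nonempty) (hsig : ∀ a w, (a, w) ∈ E → sig (f a w) = s a + w) (X : Finset ρ)
    (hX : ∀ a w, (a, w) ∈ E → f a w ∈ X) {r : ℝ} (hr : 0 < r)
    (hEr : r * A.card ≤ (E.card : ℝ)) :
    ∃ (A' : Finset α) (D : M → M), A' ⊆ A ∧
      (r / W.card) ^ 2 * A.card ≤ 16 * (A'.card : ℝ) ∧
      (∀ a ∈ A', (a, D (s a) - s a) ∈ E) ∧
      ((A'.image fun a => f a (D (s a) - s a)).card : ℝ) * r ≤ 8 * X.card := by
  have hWpos : (0 : ℝ) < W.card := by exact_mod_cast hW.card_pos
  have hApos : (0 : ℝ) < A.card := by exact_mod_cast hA.card_pos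
  set r1 : ℝ := r / (2 * W.card) with hr1
  have hr1pos : 0 < r1 := by positivity
  set F : M → Finset α := fun σ => A.filter fun a => s a = σ with hF
  set e : M → M → ℕ := fun σ w => ((F σ).filter fun a => (a, w) ∈ E).card with he
  set G : M → M → Prop := fun σ w => r1 * ((F σ).card : ℝ) ≤ e σ w with hG
  set dg : M → ℕ := fun σ => (W.filter fun w => G σ w).card with hdg
  set S : Finset M := A.image s with hS
  -- counting `E`
  have hEcard : E.card = ∑ σ ∈ S, ∑ w ∈ W, e σ w := by
    rw [← Finset.sum_product', Finset.card_eq_sum_card_fiberwise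
      (f := fun p : α × M => (s p.1, p.2)) (t := S ×ˢ W)]
    · refine Finset.sum_congr rfl fun b _ => ?_
      obtain ⟨σ, w⟩ := b
      refine Finset.card_nbij' (fun p => p.1) (fun a => (a, w)) ?_ ?_ ?_ ?_
      · rintro ⟨a, w'⟩ hp
        simp only [Finset.coe_filter, Set.mem_ofPred_eq, Prod.mk.injEq] at hp
        obtain ⟨h1, h2, rfl⟩ := hp
        simp only [hF, Finset.coe_filter, Finset.mem_filter, Set.mem_ofPred_eq]
        exact ⟨⟨(Finset.mem_product.1 (hE h1)).1, h2⟩, h1⟩
      · intro a ha
        simp only [hF, Finset.coe_filter, Finset.mem_filter, Set.mem_ofPred_eq] at ha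
        simp only [Finset.coe_filter, Set.mem_ofPred_eq, Prod.mk.injEq]
        exact ⟨ha.2, ha.1.2, trivial⟩
      · rintro ⟨a, w'⟩ hp
        simp only [Finset.coe_filter, Set.mem_ofPred_eq, Prod.mk.injEq] at hp
        obtain ⟨h1, h2, rfl⟩ := hp
        rfl
      · intro a _
        rfl
    · rintro ⟨a, w⟩ hp
      have h1 := Finset.mem_product.1 (hE hp)
      exact Finset.mem_coe.2 (Finset.mem_product.2 ⟨Finset.mem_image_of_mem _ h1.1, h1.2⟩)
  have hAcard : A.card = ∑ σ ∈ S, (F σ).card := Finset.card_eq_sum_card_image s A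
  -- (1)
  have hdeg1 : r * A.card / 2 ≤ ∑ σ ∈ S, ((F σ).card : ℝ) * dg σ := by
    have h1 : ∀ σ, (∑ w ∈ W, (e σ w : ℝ)) ≤ (F σ).card * dg σ + W.card * (r1 * (F σ).card) := by
      intro σ
      rw [← Finset.sum_filter_add_sum_filter_not W (fun w => G σ w)]
      refine add_le_add ?_ ?_
      · calc ∑ w ∈ W.filter (fun w => G σ w), (e σ w : ℝ)
            ≤ ∑ _w ∈ W.filter (fun w => G σ w), ((F σ).card : ℝ) := by
              refine Finset.sum_le_sum fun w _ => ?_
              exact_mod_cast Finset.card_le_card (Finset.filter_subset _ _)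
          _ = (F σ).card * dg σ := by
              rw [Finset.sum_const, nsmul_eq_mul, mul_comm]
      · calc ∑ w ∈ W.filter (fun w => ¬ G σ w), (e σ w : ℝ)
            ≤ ∑ _w ∈ W.filter (fun w => ¬ G σ w), r1 * ((F σ).card : ℝ) := by
              refine Finset.sum_le_sum fun w hw => ?_
              exact (not_le.1 (Finset.mem_filter.1 hw).2).le
          _ = ((W.filter (fun w => ¬ G σ w)).card : ℝ) * (r1 * (F σ).card) := by
              rw [Finset.sum_const, nsmul_eq_mul]
          _ ≤ W.card * (r1 * (F σ).card) := by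
              refine mul_le_mul_of_nonneg_right ?_ (by positivity)
              exact_mod_cast Finset.card_le_card (Finset.filter_subset _ _)
    have h2 : (E.card : ℝ) ≤ (∑ σ ∈ S, ((F σ).card : ℝ) * dg σ) + W.card * (r1 * A.card) := by
      rw [hEcard, hAcard]
      push_cast
      rw [Finset.mul_sum, Finset.mul_sum, ← Finset.sum_add_distrib]
      exact Finset.sum_le_sum fun σ _ => h1 σ
    have h3 : (W.card : ℝ) * (r1 * A.card) = r * A.card / 2 := by
      rw [hr1]
      field_simp
    linarith
  set A1 : Finset α := A.filter fun a => r / 4 ≤ (dg (s a) : ℝ) with hA1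
  have hA1card : r * A.card ≤ 4 * (A1.card * W.card) := by
    have h1 : ∑ σ ∈ S, ((F σ).card : ℝ) * dg σ = ∑ a ∈ A, (dg (s a) : ℝ) := by
      rw [Finset.sum_comp (fun σ => (dg σ : ℝ)) s]
      exact Finset.sum_congr rfl fun σ _ => by rw [nsmul_eq_mul]
    rw [h1, ← Finset.sum_filter_add_sum_filter_not A (fun a => r / 4 ≤ (dg (s a) : ℝ))] at hdeg1
    have h2 : ∑ a ∈ A1, (dg (s a) : ℝ) ≤ A1.card * W.card := by
      calc ∑ a ∈ A1, (dg (s a) : ℝ) ≤ ∑ _a ∈ A1, (W.card : ℝ) := by
            refine Finset.sum_le_sum fun a _ => ?_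
            exact_mod_cast Finset.card_le_card (Finset.filter_subset _ _)
        _ = _ := by rw [Finset.sum_const, nsmul_eq_mul]
    have h3 : ∑ a ∈ A.filter (fun a => ¬ r / 4 ≤ (dg (s a) : ℝ)), (dg (s a) : ℝ) ≤
        A.card * (r / 4) := by
      calc ∑ a ∈ A.filter (fun a => ¬ r / 4 ≤ (dg (s a) : ℝ)), (dg (s a) : ℝ)
          ≤ ∑ _a ∈ A.filter (fun a => ¬ r / 4 ≤ (dg (s a) : ℝ)), r / 4 := by
            refine Finset.sum_le_sum fun a ha => ?_
            exact (not_le.1 (Finset.mem_filter.1 ha).2).le
        _ = ((A.filter (fun a => ¬ r / 4 ≤ (dg (s a) : ℝ))).card : ℝ) * (r / 4) := by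
            rw [Finset.sum_const, nsmul_eq_mul]
        _ ≤ _ := by
            refine mul_le_mul_of_nonneg_right ?_ (by positivity)
            exact_mod_cast Finset.card_le_card (Finset.filter_subset _ _)
    linarith
  -- (2)
  obtain ⟨J, hJ1, hJ2⟩ := cover2_aux A1 s W G (r / 4) (by positivity)
    (fun a ha => (Finset.mem_filter.1 ha).2) sig X A1 subset_rfl
  -- (3)
  set Dc : M → M := fun σ => if h : ∃ D ∈ J, D - σ ∈ W ∧ G σ (D - σ) then h.choose else 0 with hDc
  set C : Finset α := A1.filter fun a => ¬ ∀ D ∈ J, ¬ (D - s a ∈ W ∧ G (s a) (D - s a)) with hC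
  have hDs : ∀ σ, (∃ D ∈ J, D - σ ∈ W ∧ G σ (D - σ)) →
      Dc σ ∈ J ∧ Dc σ - σ ∈ W ∧ G σ (Dc σ - σ) := by
    intro σ h3
    have h4 : Dc σ = h3.choose := dif_pos h3
    rw [h4]
    exact h3.choose_spec
  have hCex : ∀ a ∈ C, ∃ D ∈ J, D - s a ∈ W ∧ G (s a) (D - s a) := by
    intro a ha
    have h1 := (Finset.mem_filter.1 ha).2
    push Not at h1
    exact h1
  set A' : Finset α := C.filter fun a => (a, Dc (s a) - s a) ∈ E with hA'
  have hcard : ((A1.filter fun a => ∀ D ∈ J, ¬ (D - s a ∈ W ∧ G (s a) (D - s a))).card : ℝ) +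
      C.card = A1.card := by
    exact_mod_cast Finset.card_filter_add_card_filter_not (s := A1)
      (fun a => ∀ D ∈ J, ¬ (D - s a ∈ W ∧ G (s a) (D - s a)))
  have hCA1 : (A1.card : ℝ) ≤ 2 * C.card := by linarith
  -- fibres
  have hfib : ∀ a ∈ C, ∀ b ∈ A, s b = s a → b ∈ C := by
    intro a ha b hb hba
    have h1 := Finset.mem_filter.1 ha
    have h2 := Finset.mem_filter.1 h1.1
    refine Finset.mem_filter.2 ⟨Finset.mem_filter.2 ⟨hb, ?_⟩, ?_⟩
    · rw [hba]
      exact h2.2
    · rw [hba]
      exact h1.2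
  have hA'card : r1 * C.card ≤ (A'.card : ℝ) := by
    have h1 : C.card = ∑ σ ∈ C.image s, (C.filter fun a => s a = σ).card :=
      Finset.card_eq_sum_card_image s C
    have h2 : A'.card = ∑ σ ∈ C.image s, (A'.filter fun a => s a = σ).card :=
      Finset.card_eq_sum_card_fiberwise fun a ha =>
        Finset.mem_coe.2 (Finset.mem_image_of_mem _ (Finset.mem_filter.1 ha).1)
    rw [h1, h2]
    push_cast
    rw [Finset.mul_sum]
    refine Finset.sum_le_sum fun σ hσ => ?_
    obtain ⟨a0, ha0, rfl⟩ := Finset.mem_image.1 hσ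
    have h3 : (C.filter fun a => s a = s a0) = F (s a0) := by
      ext b
      simp only [hF, Finset.mem_filter]
      exact ⟨fun h => ⟨(Finset.mem_filter.1 (Finset.mem_filter.1 h.1).1).1, h.2⟩,
        fun h => ⟨hfib a0 ha0 b h.1 h.2, h.2⟩⟩
    have h4 : (A'.filter fun a => s a = s a0) =
        (F (s a0)).filter fun a => (a, Dc (s a0) - s a0) ∈ E := by
      ext b
      simp only [hA', hF, Finset.mem_filter]
      constructor
      · rintro ⟨⟨h5, h6⟩, h7⟩
        rw [h7] at h6
        exact ⟨⟨(Finset.mem_filter.1 (Finset.mem_filter.1 h5).1).1, h7⟩, h6⟩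
      · rintro ⟨⟨h5, h6⟩, h7⟩
        rw [h6]
        exact ⟨⟨hfib a0 ha0 b h5 h6, h7⟩, rfl⟩
    rw [h3, h4]
    exact (hDs (s a0) (hCex a0 ha0)).2.2
  refine ⟨A', Dc, (Finset.filter_subset _ _).trans ((Finset.filter_subset _ _).trans
    (Finset.filter_subset _ _)), ?_, fun a ha => (Finset.mem_filter.1 ha).2, ?_⟩
  · -- the size
    have h1 : r1 * (A1.card / 2) ≤ (A'.card : ℝ) := by
      refine le_trans ?_ hA'card
      exact mul_le_mul_of_nonneg_left (by linarith) hr1pos.le
    have h2 : r * A.card / (4 * W.card) ≤ A1.card := by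
      rw [div_le_iff₀ (by positivity)]
      linarith
    have h3 : (r / W.card) ^ 2 * A.card = 16 * (r1 * (r * A.card / (4 * W.card) / 2)) := by
      rw [hr1]
      field_simp
      norm_num
    rw [h3]
    have h4 : r1 * (r * A.card / (4 * W.card) / 2) ≤ r1 * (A1.card / 2) :=
      mul_le_mul_of_nonneg_left (by linarith) hr1pos.le
    linarith
  · -- the values
    have h5 : (A'.image fun a => f a (Dc (s a) - s a)) ⊆
        J.biUnion fun D => X.filter fun y => sig y = D := by
      intro y hy
      rw [Finset.mem_image] at hy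
      obtain ⟨a, ha, rfl⟩ := hy
      have haC : a ∈ C := (Finset.mem_filter.1 ha).1
      have haE := (Finset.mem_filter.1 ha).2
      rw [Finset.mem_biUnion]
      refine ⟨Dc (s a), (hDs (s a) (hCex a haC)).1, ?_⟩
      rw [Finset.mem_filter]
      refine ⟨hX a _ haE, ?_⟩
      rw [hsig a _ haE]
      abel
    have h6 : ((A'.image fun a => f a (Dc (s a) - s a)).card : ℝ) ≤
        ((∑ D ∈ J, (X.filter fun x => sig x = D).card : ℕ) : ℝ) := by
      exact_mod_cast (Finset.card_le_card h5).trans Finset.card_biUnion_le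
    have hA1pos : (0 : ℝ) < A1.card := by
      by_contra hcon
      have h7 : (A1.card : ℝ) ≤ 0 := not_lt.1 hcon
      have h8 : 0 < r * A.card := by positivity
      nlinarith
    have h9 : ((∑ D ∈ J, (X.filter fun x => sig x = D).card : ℕ) : ℝ) * (A1.card * (r / 4)) ≤
        2 * X.card * A1.card := by
      have h10 : (0 : ℝ) ≤ 2 * X.card *
        ((A1.filter fun a => ∀ D ∈ J, ¬ (D - s a ∈ W ∧ G (s a) (D - s a))).card : ℝ) := by
        positivity
      linarith
    have h11 : ((∑ D ∈ J, (X.filter fun x => sig x = D).card : ℕ) : ℝ) * r ≤ 8 * X.card := by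
      have h12 : (((∑ D ∈ J, (X.filter fun x => sig x = D).card : ℕ) : ℝ) * r) * A1.card ≤
        (8 * X.card) * A1.card := by linarith
      exact le_of_mul_le_mul_right h12 hA1pos
    exact (mul_le_mul_of_nonneg_right h6 hr.le).trans h11

end Pool.Agent.T2H12.KO
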