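import Mathlib
import Pool.Agent.T2H12.KD.Main
import Pool.Agent.T2H12.KO.Cover2

/-!
# From entropy to sets (package FLAT)
-/

set_option autoImplicit false

namespace Pool.Agent.T2H12.KO

open Finset
open scoped Classical
open Pool.Agent.Y359.PE Pool.Agent.T2H12.KF Pool.Agent.T2H12.KD

namespace FlatAux

/-- few values are taken often -/
lemma image_card_mul_le {α β : Type*} (S : Finset α) (hS : S.Nonempty) (f : α → β) (T : Finset α)
    (hT : T ⊆ S) {t : ℝ} (ht : ∀ x ∈ T, t * S.card ≤ fc S f x) :
    ((T.image f).card : ℝ) * t ≤ 1 := by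
  have hc : (0 : ℝ) < S.card := by exact_mod_cast card_pos.2 hS
  have h1 : ∑ v ∈ T.image f, (t * S.card) ≤
      ∑ v ∈ T.image f, ((S.filter fun x => f x = v).card : ℝ) := by
    refine sum_le_sum fun v hv => ?_
    obtain ⟨x, hx, rfl⟩ := mem_image.1 hv
    exact ht x hx
  have h2 : ∑ v ∈ T.image f, ((S.filter fun x => f x = v).card) ≤ S.card := by
    rw [card_eq_sum_card_image f S]
    exact sum_le_sum_of_subset (image_subset_image hT)
  rw [sum_const, nsmul_eq_mul] at h1
  have h3 : (∑ v ∈ T.image f, ((S.filter fun x => f x = v).card : ℝ)) ≤ S.card := by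
    exact_mod_cast h2
  have h4 : ((T.image f).card : ℝ) * t * S.card ≤ 1 * S.card := by
    rw [mul_assoc, one_mul]
    exact h1.trans h3
  exact le_of_mul_le_mul_right h4 hc

/-- Markov's inequality for a function with small exponential moment of the negative part -/
lemma markov {α : Type*} (Q : Finset α) (R : α → ℝ) {m c : ℝ} (h1 : ∑ q ∈ Q, R q ≤ m * Q.card)
    (h2 : ∑ q ∈ Q, Real.exp (-R q) ≤ Q.card) :
    ((Q.filter fun q => c < R q).card : ℝ) * c ≤ (m + 1) * Q.card := by
  have h3 : ∑ q ∈ Q.filter (fun q => c < R q), c ≤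
      ∑ q ∈ Q, (R q + Real.exp (-R q)) := by
    calc ∑ q ∈ Q.filter (fun q => c < R q), c
        ≤ ∑ q ∈ Q.filter (fun q => c < R q), (R q + Real.exp (-R q)) := by
          refine sum_le_sum fun q hq => ?_
          have := (mem_filter.1 hq).2
          have := Real.exp_pos (-R q)
          linarith
      _ ≤ ∑ q ∈ Q, (R q + Real.exp (-R q)) := by
          refine sum_le_sum_of_subset_of_nonneg (filter_subset _ _) fun q _ _ => ?_
          have := Real.add_one_le_exp (-R q)
          linarith
  rw [sum_const, nsmul_eq_mul, sum_add_distrib] at h3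
  linarith

end FlatAux

open FlatAux

/-- **From entropy to sets.** -/
theorem flat {β M : Type} [AddCommGroup M] (A : Finset ℤ) (B : Finset β) (hA : A.Nonempty)
    (hB : B.Nonempty) (y : β → ℤ) (s : ℤ → M)
    (hs : ∀ a ∈ A, ∀ b ∈ B, s (a * y b) = s a + s (y b)) {κ : ℝ} (hκ : 0 < κ) (hκ1 : κ ≤ 1)
    (ha : 8 / κ ≤ Real.log A.card)
    (hent : h (A ×ˢ B) (fun q => q.1 * y q.2) - h B (fun b => s (y b)) ≤
      (1 - κ) * Real.log A.card) :
    ∃ (A' : Finset ℤ) (b : ℤ → β), A' ⊆ A ∧ (∀ a ∈ A', b a ∈ B) ∧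
      (∀ a ∈ A', ∀ a' ∈ A', s a = s a' → b a = b a') ∧
      (κ / (4 * (Real.log B.card + 1))) ^ 2 * A.card ≤ 144 * (A'.card : ℝ) ∧
      κ / (4 * (Real.log B.card + 1)) * ((A'.image fun a => a * y (b a)).card : ℝ) ≤
        24 * Real.exp ((1 - κ / 2) * Real.log A.card) := by
  set Q : Finset (ℤ × β) := A ×ˢ B with hQ
  set z : ℤ × β → ℤ := fun q => q.1 * y q.2 with hz
  set v : β → M := fun b => s (y b) with hv
  set a : ℝ := Real.log A.card with haa
  have hAc : (0 : ℝ) < A.card := by exact_mod_cast card_pos.2 hA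
  have hBc : (0 : ℝ) < B.card := by exact_mod_cast card_pos.2 hB
  have hQn : Q.Nonempty := hA.product hB
  have hQc : (0 : ℝ) < Q.card := by exact_mod_cast card_pos.2 hQn
  have hQe : (Q.card : ℝ) = A.card * B.card := by
    rw [hQ, card_product]; push_cast; ring
  have hlQ : Real.log Q.card = a + Real.log B.card := by
    rw [hQe, Real.log_mul hAc.ne' hBc.ne']
  have hlB : 0 ≤ Real.log B.card := Real.log_nonneg (by exact_mod_cast card_pos.2 hB)
  have ha8 : 8 ≤ κ * a := by
    have := (div_le_iff₀ hκ).1 ha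
    linarith
  -- the function `R`
  set R : ℤ × β → ℝ := fun q => (Real.log (fc B v q.2) - Real.log B.card) -
    (Real.log (fc Q z q) - Real.log Q.card) with hR
  have hRsum : ∑ q ∈ Q, R q ≤ ((1 - κ) * a) * Q.card := by
    have e1 : ∑ q ∈ Q, (Real.log Q.card - Real.log (fc Q z q)) = h Q z * Q.card := by
      unfold h; field_simp
    have e2 : ∑ b ∈ B, (Real.log B.card - Real.log (fc B v b)) = h B v * B.card := by
      unfold h; field_simp
    have e3 : ∑ q ∈ Q, (Real.log B.card - Real.log (fc B v q.2)) = h B v * Q.card := by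
      rw [hQ, sum_product]
      simp only
      rw [sum_const, nsmul_eq_mul, e2, ← hQ, hQe]
      ring
    have e4 : ∑ q ∈ Q, R q = h Q z * Q.card - h B v * Q.card := by
      rw [← e1, ← e3, ← sum_sub_distrib]
      refine sum_congr rfl fun q _ => ?_
      simp only [hR]
      ring
    rw [e4, ← sub_mul]
    exact mul_le_mul_of_nonneg_right hent hQc.le
  have hRexp : ∑ q ∈ Q, Real.exp (-R q) ≤ Q.card := by
    have e1 : ∀ q ∈ Q, Real.exp (-R q) = (1 / A.card) * ((fc Q z q : ℝ) * (1 / fc B v q.2)) := by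
      intro q hq
      have hq2 : q.2 ∈ B := (mem_product.1 hq).2
      have p1 := fc_posR (f := z) hq
      have p2 := fc_posR (f := v) hq2
      have : -R q = Real.log ((1 / A.card) * ((fc Q z q : ℝ) * (1 / fc B v q.2))) := by
        rw [Real.log_mul (by positivity) (by positivity), Real.log_mul (by positivity)
          (by positivity), Real.log_div one_ne_zero hAc.ne', Real.log_div one_ne_zero p2.ne',
          Real.log_one]
        simp only [hR]
        rw [hlQ]
        ring
      rw [this, Real.exp_log (by positivity)]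
    have e2 : ∀ x ∈ A, ∑ b ∈ B, ((fc Q z (x, b) : ℝ) * (1 / fc B v b)) ≤ Q.card := by
      intro x hx
      have f1 : ∀ b ∈ B, ((fc Q z (x, b) : ℝ) * (1 / fc B v b)) =
          ∑ q' ∈ Q, if z q' = z (x, b) then (1 : ℝ) / fc B v b else 0 := by
        intro b _
        have f0 : fc Q z (x, b) = (Q.filter fun q' => z q' = z (x, b)).card := by
          unfold fc
          congr 1
          ext q'
          rw [mem_cl, mem_filter]
        rw [← sum_filter, sum_const, nsmul_eq_mul, f0]
      rw [sum_congr rfl f1, sum_comm]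
      have f2 : ∀ q' ∈ Q, (∑ b ∈ B, if z q' = z (x, b) then (1 : ℝ) / fc B v b else 0) ≤ 1 := by
        intro q' _
        rw [← sum_filter]
        refine sum_inv_le B v _ (filter_subset _ _) ?_
        intro b hb b' hb'
        rw [mem_filter] at hb hb'
        have g1 := hs x hx b hb.1
        have g2 := hs x hx b' hb'.1
        have g3 : x * y b = x * y b' := by
          have := hb.2.symm.trans hb'.2
          simpa only [hz] using this
        rw [g3, g2] at g1
        simp only [hv]
        exact (add_left_cancel g1).symm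
      calc _ ≤ ∑ q' ∈ Q, (1 : ℝ) := sum_le_sum f2
        _ = Q.card := by simp
    rw [sum_congr rfl e1, ← mul_sum, hQ, sum_product]
    calc (1 / A.card : ℝ) * ∑ x ∈ A, ∑ b ∈ B, ((fc (A ×ˢ B) z (x, b) : ℝ) * (1 / fc B v (x, b).2))
        ≤ (1 / A.card : ℝ) * ∑ x ∈ A, (Q.card : ℝ) := by
          refine mul_le_mul_of_nonneg_left (sum_le_sum fun x hx => ?_) (by positivity)
          exact e2 x hx
      _ = ((A ×ˢ B).card : ℝ) := by
          rw [sum_const, nsmul_eq_mul, ← hQ]
          field_simp
  -- the good pairs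
  set E1 : Finset (ℤ × β) := Q.filter fun q => R q ≤ (1 - κ / 2) * a with hE1
  have hE1c : κ / 4 * Q.card ≤ E1.card := by
    have h1 := markov Q R (c := (1 - κ / 2) * a) hRsum hRexp
    have h2 : (E1.card : ℝ) + (Q.filter fun q => (1 - κ / 2) * a < R q).card = Q.card := by
      have := card_filter_add_card_filter_not (s := Q) (fun q => R q ≤ (1 - κ / 2) * a)
      have h3 : (Q.filter fun q => ¬ (R q ≤ (1 - κ / 2) * a)) =
          Q.filter fun q => (1 - κ / 2) * a < R q := by
        refine filter_congr fun q _ => ?_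
        rw [not_le]
      rw [h3] at this
      exact_mod_cast this
    set N : ℝ := ((Q.filter fun q => (1 - κ / 2) * a < R q).card : ℝ) with hN
    have ha0 : 0 < a := by
      by_contra hcon
      push Not at hcon
      nlinarith
    have h3 : (1 - κ) * a + 1 ≤ (1 - κ / 4) * ((1 - κ / 2) * a) := by nlinarith
    have h4 : N * ((1 - κ / 2) * a) ≤ ((1 - κ / 4) * Q.card) * ((1 - κ / 2) * a) := by
      calc N * ((1 - κ / 2) * a) ≤ ((1 - κ) * a + 1) * Q.card := h1
        _ ≤ ((1 - κ / 4) * ((1 - κ / 2) * a)) * Q.card :=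
          mul_le_mul_of_nonneg_right h3 hQc.le
        _ = _ := by ring
    have h5 : 0 < (1 - κ / 2) * a := mul_pos (by linarith) ha0
    have h6 := le_of_mul_le_mul_right h4 h5
    linarith
  -- the dyadic class
  set p : ℝ := κ / (4 * (Real.log B.card + 1)) with hp
  have hp0 : 0 < p := by rw [hp]; positivity
  set J : β → ℕ := fun b => ⌊Real.log B.card - Real.log (fc B v b)⌋₊ with hJ
  obtain ⟨j, -, hj⟩ : ∃ j ∈ range (⌊Real.log B.card⌋₊ + 1),
      p * Q.card ≤ ((E1.filter fun q => J q.2 = j).card : ℝ) := by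
    refine exists_le_card_fiber_of_nsmul_le_card_of_maps_to ?_ (by simp) ?_
    · intro q hq
      have hq2 : q.2 ∈ B := (mem_product.1 (mem_filter.1 hq).1).2
      have p2 := fc_pos (f := v) hq2
      have h1 : (0 : ℝ) ≤ Real.log (fc B v q.2) := Real.log_nonneg (by exact_mod_cast p2)
      have h2 : J q.2 ≤ ⌊Real.log B.card⌋₊ := Nat.floor_le_floor (by linarith)
      exact mem_range.2 (by omega)
    · rw [card_range, nsmul_eq_mul]
      refine le_trans ?_ hE1c
      have h1 : ((⌊Real.log B.card⌋₊ + 1 : ℕ) : ℝ) ≤ Real.log B.card + 1 := by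
        push_cast
        have := Nat.floor_le hlB
        linarith
      calc ((⌊Real.log B.card⌋₊ + 1 : ℕ) : ℝ) * (p * Q.card)
          ≤ (Real.log B.card + 1) * (p * Q.card) :=
            mul_le_mul_of_nonneg_right h1 (by positivity)
        _ = κ / 4 * Q.card := by
            rw [hp]; field_simp
  set E2 : Finset (ℤ × β) := E1.filter fun q => J q.2 = j with hE2
  set Bj : Finset β := B.filter fun b => J b = j with hBj
  have hJ1 : ∀ b ∈ Bj, Real.exp (-(j : ℝ) - 1) * B.card ≤ fc B v b := by
    intro b hb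
    have hb1 := (mem_filter.1 hb).1
    have hb2 := (mem_filter.1 hb).2
    have p2 := fc_posR (f := v) hb1
    have h1 := Nat.lt_floor_add_one (Real.log B.card - Real.log (fc B v b))
    have h2 : (⌊Real.log B.card - Real.log (fc B v b)⌋₊ : ℝ) = j := by exact_mod_cast hb2
    rw [h2] at h1
    rw [← Real.log_le_log_iff (by positivity) p2, Real.log_mul (Real.exp_pos _).ne' hBc.ne',
      Real.log_exp]
    linarith
  have hJ2 : ∀ b ∈ Bj, (fc B v b : ℝ) ≤ Real.exp (-(j : ℝ)) * B.card := by
    intro b hb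
    have hb1 := (mem_filter.1 hb).1
    have hb2 := (mem_filter.1 hb).2
    have p2 := fc_posR (f := v) hb1
    have h3 : (fc B v b : ℝ) ≤ B.card := by exact_mod_cast fc_le
    have h4 : 0 ≤ Real.log B.card - Real.log (fc B v b) :=
      sub_nonneg.2 (Real.log_le_log p2 h3)
    have h1 := Nat.floor_le h4
    have h2 : (⌊Real.log B.card - Real.log (fc B v b)⌋₊ : ℝ) = j := by exact_mod_cast hb2
    rw [h2] at h1
    rw [← Real.log_le_log_iff p2 (by positivity), Real.log_mul (Real.exp_pos _).ne' hBc.ne',
      Real.log_exp]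
    linarith
  set W : Finset M := Bj.image v with hW
  have hWc : (W.card : ℝ) ≤ Real.exp (j + 1) := by
    have h1 := image_card_mul_le B hB v Bj (filter_subset _ _) hJ1
    have h2 : Real.exp (-(j : ℝ) - 1) = (Real.exp (j + 1))⁻¹ := by
      rw [← Real.exp_neg]; congr 1; ring
    rw [h2, ← div_eq_mul_inv, div_le_one (Real.exp_pos _)] at h1
    exact h1
  have hE2B : ∀ q ∈ E2, q.2 ∈ Bj := by
    intro q hq
    have h1 := mem_filter.1 hq
    have h2 := mem_filter.1 h1.1
    exact mem_filter.2 ⟨(mem_product.1 h2.1).2, h1.2⟩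
  have hE2n : E2.Nonempty := by
    rw [← card_pos]
    have : (0 : ℝ) < E2.card := lt_of_lt_of_le (by positivity) hj
    exact_mod_cast this
  have hWn : W.Nonempty := by
    obtain ⟨q, hq⟩ := hE2n
    exact ⟨v q.2, mem_image_of_mem v (hE2B q hq)⟩
  -- the set `X`
  set X : Finset ℤ := @Finset.image (ℤ × β) ℤ (fun a b => Classical.propDecidable (a = b)) z E2
    with hX
  have hXc : (X.card : ℝ) ≤ Real.exp (j + 1 + (1 - κ / 2) * a) := by
    have h1 := image_card_mul_le Q hQn z E2 ((filter_subset _ _).trans (filter_subset _ _))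
      (t := Real.exp (-((j : ℝ) + 1 + (1 - κ / 2) * a))) (by
        intro q hq
        have hqE := (mem_filter.1 hq).1
        have hqQ := (mem_filter.1 hqE).1
        have hqR := (mem_filter.1 hqE).2
        have p1 := fc_posR (f := z) hqQ
        have h2 := hJ1 q.2 (hE2B q hq)
        have p2 := fc_posR (f := v) (mem_product.1 hqQ).2
        rw [← Real.log_le_log_iff (by positivity) p2, Real.log_mul (Real.exp_pos _).ne' hBc.ne',
          Real.log_exp] at h2
        rw [← Real.log_le_log_iff (by positivity) p1, Real.log_mul (Real.exp_pos _).ne' hQc.ne',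
          Real.log_exp]
        simp only [hR] at hqR
        linarith)
    rw [Real.exp_neg, ← div_eq_mul_inv, div_le_one (Real.exp_pos _)] at h1
    exact h1
  -- the choice of `β`
  set n1 : β → ℕ := fun b => (E2.filter fun q => q.2 = b).card with hn1
  have hbe : ∀ u : M, ∃ b ∈ B, u ∈ W → (v b = u ∧ b ∈ Bj ∧ ∀ b' ∈ Bj, v b' = u → n1 b' ≤ n1 b) := by
    intro u
    by_cases hu : u ∈ W
    · have h1 : (Bj.filter fun b => v b = u).Nonempty := by
        obtain ⟨b, hb, rfl⟩ := mem_image.1 hu
        exact ⟨b, mem_filter.2 ⟨hb, rfl⟩⟩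
      obtain ⟨b, hb, hmax⟩ := exists_max_image _ n1 h1
      rw [mem_filter] at hb
      exact ⟨b, (mem_filter.1 hb.1).1, fun _ => ⟨hb.2, hb.1, fun b' hb' hv' =>
        hmax b' (mem_filter.2 ⟨hb', hv'⟩)⟩⟩
    · obtain ⟨b, hb⟩ := hB
      exact ⟨b, hb, fun h => absurd h hu⟩
  choose be hbe1 hbe2 using hbe
  set E : Finset (ℤ × M) := (A ×ˢ W).filter fun q => (q.1, be q.2) ∈ E2 with hE
  have hEW : ∀ u ∈ W, n1 (be u) ≤ (E.filter fun q => q.2 = u).card := by
    intro u hu
    refine card_le_card_of_injOn (fun q => (q.1, u)) ?_ ?_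
    · intro q hq
      have hq' := mem_filter.1 (mem_coe.1 hq)
      have hq2 : q.2 = be u := hq'.2
      have hqQ := (mem_filter.1 (mem_filter.1 hq'.1).1).1
      refine mem_coe.2 (mem_filter.2 ⟨mem_filter.2 ⟨mem_product.2 ⟨(mem_product.1 hqQ).1, hu⟩, ?_⟩,
        rfl⟩)
      change (q.1, be u) ∈ E2
      rw [← hq2]
      exact hq'.1
    · intro q hq q' hq' hqq
      have h1 := (mem_filter.1 (mem_coe.1 hq)).2
      have h2 := (mem_filter.1 (mem_coe.1 hq')).2
      have h3 : q.1 = q'.1 := (Prod.mk.inj hqq).1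
      exact Prod.ext h3 (h1.trans h2.symm)
  have hEc : p * Real.exp j * A.card ≤ E.card := by
    have h1 : E.card = ∑ u ∈ W, (E.filter fun q => q.2 = u).card :=
      card_eq_sum_card_fiberwise (fun q hq =>
        (mem_product.1 (mem_filter.1 (mem_coe.1 hq)).1).2)
    have h2 : E2.card = ∑ b ∈ Bj, n1 b :=
      card_eq_sum_card_fiberwise (fun q hq => hE2B q (mem_coe.1 hq))
    have h3 : ∑ b ∈ Bj, n1 b = ∑ u ∈ W, ∑ b ∈ Bj.filter (fun b => v b = u), n1 b :=
      (sum_fiberwise_of_maps_to (fun b hb => mem_image_of_mem v hb) _).symm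
    have h4 : ∀ u ∈ W, ((∑ b ∈ Bj.filter (fun b => v b = u), n1 b : ℕ) : ℝ) ≤
        Real.exp (-(j : ℝ)) * B.card * (E.filter fun q => q.2 = u).card := by
      intro u hu
      obtain ⟨k1, k2, k3⟩ := hbe2 u hu
      have h5 : (∑ b ∈ Bj.filter (fun b => v b = u), n1 b) ≤
          (Bj.filter (fun b => v b = u)).card * n1 (be u) := by
        rw [← smul_eq_mul]
        refine sum_le_card_nsmul _ _ _ fun b hb => ?_
        rw [mem_filter] at hb
        exact k3 b hb.1 hb.2
      have h6 : ((Bj.filter (fun b => v b = u)).card : ℝ) ≤ Real.exp (-(j : ℝ)) * B.card := by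
        refine le_trans ?_ (hJ2 (be u) k2)
        have : Bj.filter (fun b => v b = u) ⊆ cl B v (be u) := by
          intro b hb
          rw [mem_filter] at hb
          exact mem_cl.2 ⟨(mem_filter.1 hb.1).1, hb.2.trans k1.symm⟩
        exact_mod_cast card_le_card this
      calc ((∑ b ∈ Bj.filter (fun b => v b = u), n1 b : ℕ) : ℝ)
          ≤ ((Bj.filter (fun b => v b = u)).card : ℝ) * n1 (be u) := by exact_mod_cast h5
        _ ≤ (Real.exp (-(j : ℝ)) * B.card) * n1 (be u) :=
            mul_le_mul_of_nonneg_right h6 (by positivity)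
        _ ≤ _ := by
            refine mul_le_mul_of_nonneg_left ?_ (by positivity)
            exact_mod_cast hEW u hu
    have h7 : (E2.card : ℝ) ≤ Real.exp (-(j : ℝ)) * B.card * E.card := by
      rw [h2, h3, h1]
      push_cast
      rw [mul_sum]
      refine sum_le_sum fun u hu => ?_
      have := h4 u hu
      push_cast at this
      exact this
    have h8 := hj.trans h7
    rw [hQe] at h8
    have h9 : Real.exp (-(j : ℝ)) = (Real.exp j)⁻¹ := Real.exp_neg _
    rw [h9] at h8
    have h10 : p * Real.exp j * A.card * (B.card / Real.exp j) ≤ E.card * (B.card / Real.exp j) := by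
      have e0 : Real.exp (j : ℝ) ≠ 0 := (Real.exp_pos _).ne'
      calc p * Real.exp j * A.card * (B.card / Real.exp j) = p * (A.card * B.card) := by
            field_simp
        _ ≤ _ := h8
        _ = _ := by field_simp
    exact le_of_mul_le_mul_right h10 (by positivity)
  obtain ⟨A', D, hA', hc1, hc2, hc3⟩ := cover2 A s W E (filter_subset _ _)
    (fun x u => x * y (be u)) s hA hWn (by
      intro x u hxu
      have h1 := mem_filter.1 hxu
      have h2 := mem_product.1 h1.1
      rw [hs x h2.1 (be u) (hbe1 u)]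
      have h3 := (hbe2 u h2.2).1
      simp only [hv] at h3
      rw [h3]) X (by
      intro x u hxu
      have h1 := mem_filter.1 hxu
      exact (@mem_image (ℤ × β) ℤ (fun a b => Classical.propDecidable (a = b)) z E2
        (x * y (be u))).2 ⟨(x, be u), h1.2, rfl⟩) (r := p * Real.exp j) (by positivity) hEc
  refine ⟨A', fun x => be (D (s x) - s x), hA', fun x _ => hbe1 _, ?_, ?_, ?_⟩
  · intro x _ x' _ hxx
    simp only
    rw [hxx]
  · have hWpos : (0 : ℝ) < W.card := by exact_mod_cast card_pos.2 hWn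
    have h1 : p / Real.exp 1 ≤ p * Real.exp j / W.card := by
      rw [div_le_div_iff₀ (Real.exp_pos _) hWpos]
      calc p * W.card ≤ p * Real.exp (j + 1) := mul_le_mul_of_nonneg_left hWc hp0.le
        _ = p * Real.exp j * Real.exp 1 := by rw [Real.exp_add]; ring
    have h2 : (p / Real.exp 1) ^ 2 ≤ (p * Real.exp j / W.card) ^ 2 :=
      pow_le_pow_left₀ (by positivity) h1 2
    have h3 : (p / Real.exp 1) ^ 2 * A.card ≤ 16 * (A'.card : ℝ) :=
      (mul_le_mul_of_nonneg_right h2 hAc.le).trans hc1
    rw [div_pow, div_mul_eq_mul_div, div_le_iff₀ (by positivity)] at h3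
    have h4 : Real.exp 1 < 2.7182818286 := Real.exp_one_lt_d9
    have h5 : Real.exp 1 ^ 2 ≤ 9 := by
      have h50 := Real.exp_pos 1
      nlinarith
    calc p ^ 2 * A.card ≤ 16 * (A'.card : ℝ) * Real.exp 1 ^ 2 := h3
      _ ≤ 16 * (A'.card : ℝ) * 9 := mul_le_mul_of_nonneg_left h5 (by positivity)
      _ = 144 * (A'.card : ℝ) := by ring
  · have h1 : ((A'.image fun x => x * y (be (D (s x) - s x))).card : ℝ) * (p * Real.exp j) ≤
        8 * Real.exp (j + 1 + (1 - κ / 2) * a) := by
      have hc5 : (A'.image fun x => x * y (be (D (s x) - s x))).card =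
          (@Finset.image ℤ ℤ (fun a b => Classical.propDecidable (a = b))
            (fun x => x * y (be (D (s x) - s x))) A').card := by
        have hinst : ∀ i₁ i₂ : DecidableEq ℤ,
            @Finset.image ℤ ℤ i₁ (fun x => x * y (be (D (s x) - s x))) A' =
            @Finset.image ℤ ℤ i₂ (fun x => x * y (be (D (s x) - s x))) A' :=
          fun i₁ i₂ => by rw [Subsingleton.elim i₁ i₂]
        exact congrArg Finset.card (hinst _ _)
      have hc4 : ((A'.image fun x => x * y (be (D (s x) - s x))).card : ℝ) * (p * Real.exp j) ≤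
          8 * X.card := by
        rw [hc5]
        exact hc3
      exact hc4.trans (mul_le_mul_of_nonneg_left hXc (by norm_num))
    have h2 : Real.exp (j + 1 + (1 - κ / 2) * a) =
        Real.exp j * (Real.exp 1 * Real.exp ((1 - κ / 2) * a)) := by
      rw [Real.exp_add, Real.exp_add]; ring
    rw [h2] at h1
    have h3 : p * ((A'.image fun x => x * y (be (D (s x) - s x))).card : ℝ) * Real.exp j ≤
        (8 * (Real.exp 1 * Real.exp ((1 - κ / 2) * a))) * Real.exp j := by
      calc _ = ((A'.image fun x => x * y (be (D (s x) - s x))).card : ℝ) * (p * Real.exp j) := by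
            ring
        _ ≤ _ := h1
        _ = _ := by ring
    have h4 := le_of_mul_le_mul_right h3 (Real.exp_pos _)
    refine h4.trans ?_
    have h5 : Real.exp 1 < 2.7182818286 := Real.exp_one_lt_d9
    have h6 := Real.exp_pos ((1 - κ / 2) * a)
    nlinarith

end Pool.Agent.T2H12.KO
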