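import Mathlib
import Pool.Agent.T2H12.KD.Main

/-!
# The growth of the product sets in terms of entropy (package GROWTH, helper70)
-/

set_option autoImplicit false

namespace Pool.Agent.T2H12.KO

open Finset
open scoped Classical
open Pool.Agent.Y359.PE Pool.Agent.T2H12.KF Pool.Agent.T2H12.KD

section gen

variable {α β γ δ σ τ : Type*}

lemma h_rearr [DecidableEq τ] (S : Finset σ) (S' : Finset τ) (e : σ → τ)
    (he : ∀ x ∈ S, ∀ y ∈ S, e x = e y → x = y) (hi : S.image e = S') (F : τ → β) :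
    h S' F = h S (fun x => F (e x)) := by
  rw [← hi, h_image S e he]

/-- the entropy of a product of independent variables is at least the entropy of a factor -/
lemma h_mul_ge (A : Finset α) (C : Finset γ) (hA : A.Nonempty) (hC : C.Nonempty) (X : α → ℤ)
    (Z : γ → ℤ) (hX : ∀ x ∈ A, X x ≠ 0) :
    h C Z ≤ h (A ×ˢ C) (fun s => X s.1 * Z s.2) := by
  have h1 := ce_le_h (A ×ˢ C) (fun s => X s.1) (fun s => X s.1 * Z s.2)
  unfold ce at h1
  have h2 : h (A ×ˢ C) (fun s => (X s.1, X s.1 * Z s.2)) =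
      h (A ×ˢ C) (fun s => (X s.1, Z s.2)) := by
    refine h_congr fun x hx y hy => ?_
    rw [Prod.mk.injEq, Prod.mk.injEq]
    constructor
    · rintro ⟨e1, e2⟩
      rw [e1] at e2
      exact ⟨e1, mul_left_cancel₀ (hX _ (mem_product.1 hy).1) e2⟩
    · rintro ⟨e1, e2⟩
      exact ⟨e1, by rw [e1, e2]⟩
  rw [h2, h_prod A C hA hC X Z, h_fst A C hA hC X] at h1
  linarith

/-- the inequality behind the concavity of the entropies of the products -/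
lemma kv (A : Finset α) (B : Finset β) (C : Finset γ) (hA : A.Nonempty) (hB : B.Nonempty)
    (hC : C.Nonempty) (X : α → ℤ) (Y : β → ℤ) (Z : γ → ℤ) (hX : ∀ x ∈ A, X x ≠ 0) :
    h (A ×ˢ (B ×ˢ C)) (fun s => X s.1 * (Y s.2.1 * Z s.2.2)) + h C Z ≤
      h (A ×ˢ C) (fun s => X s.1 * Z s.2) + h (B ×ˢ C) (fun s => Y s.1 * Z s.2) := by
  have hBC : (B ×ˢ C).Nonempty := hB.product hC
  have hAC : (A ×ˢ C).Nonempty := hA.product hC
  have h1 := submod (A ×ˢ (B ×ˢ C)) (fun s => X s.1 * (Y s.2.1 * Z s.2.2))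
    (fun s => (X s.1 * Z s.2.2, Y s.2.1)) (fun s => X s.1) (by
      intro x _ y _ hxy
      obtain ⟨e1, e2⟩ := Prod.mk.inj hxy
      calc X x.1 * (Y x.2.1 * Z x.2.2) = (X x.1 * Z x.2.2) * Y x.2.1 := by ring
        _ = (X y.1 * Z y.2.2) * Y y.2.1 := by rw [e1, e2]
        _ = X y.1 * (Y y.2.1 * Z y.2.2) := by ring)
  have h2 : h (A ×ˢ (B ×ˢ C)) (fun s => ((X s.1 * Z s.2.2, Y s.2.1), X s.1)) =
      h (A ×ˢ (B ×ˢ C)) (fun s => (X s.1, (Y s.2.1, Z s.2.2))) := by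
    refine h_congr fun x hx y hy => ?_
    simp only [Prod.mk.injEq]
    constructor
    · rintro ⟨⟨e1, e2⟩, e3⟩
      rw [e3] at e1
      exact ⟨e3, e2, mul_left_cancel₀ (hX _ (mem_product.1 hy).1) e1⟩
    · rintro ⟨e1, e2, e3⟩
      exact ⟨⟨by rw [e1, e3], e2⟩, e1⟩
  have h3 : h (A ×ˢ (B ×ˢ C)) (fun s => (X s.1, (Y s.2.1, Z s.2.2))) = h A X + (h B Y + h C Z) := by
    rw [← h_prod B C hB hC Y Z]
    exact h_prod A (B ×ˢ C) hA hBC X (fun s => (Y s.1, Z s.2))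
  have h4 : h (A ×ˢ (B ×ˢ C)) (fun s => (X s.1 * Z s.2.2, Y s.2.1)) =
      h (A ×ˢ C) (fun s => X s.1 * Z s.2) + h B Y := by
    rw [← h_prod (A ×ˢ C) B hAC hB (fun s => X s.1 * Z s.2) Y]
    symm
    refine h_rearr (A ×ˢ (B ×ˢ C)) ((A ×ˢ C) ×ˢ B) (fun s => ((s.1, s.2.2), s.2.1)) ?_ ?_ _
    · rintro ⟨a, b, c⟩ _ ⟨a', b', c'⟩ _ hh
      simp only [Prod.mk.injEq] at hh ⊢
      tauto
    · ext ⟨⟨a, c⟩, b⟩
      simp only [mem_image, mem_product, Prod.mk.injEq, Prod.exists]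
      constructor
      · rintro ⟨a', b', c', ⟨h1, h2, h3⟩, ⟨rfl, rfl⟩, rfl⟩
        exact ⟨⟨h1, h3⟩, h2⟩
      · rintro ⟨⟨h1, h2⟩, h3⟩
        exact ⟨a, b, c, ⟨h1, h3, h2⟩, ⟨rfl, rfl⟩, rfl⟩
  have h5 : h (A ×ˢ (B ×ˢ C)) (fun s => (X s.1 * (Y s.2.1 * Z s.2.2), X s.1)) =
      h A X + h (B ×ˢ C) (fun s => Y s.1 * Z s.2) := by
    rw [← h_prod A (B ×ˢ C) hA hBC X (fun s => Y s.1 * Z s.2)]
    refine h_congr fun x hx y hy => ?_
    simp only [Prod.mk.injEq]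
    constructor
    · rintro ⟨e1, e2⟩
      rw [e2] at e1
      exact ⟨e2, mul_left_cancel₀ (hX _ (mem_product.1 hy).1) e1⟩
    · rintro ⟨e1, e2⟩
      exact ⟨by rw [e1, e2], e1⟩
  rw [h2, h3, h4, h5] at h1
  linarith

/-- the main entropy inequality -/
lemma key3 (A : Finset α) (U : Finset β) (V : Finset γ) (W : Finset δ) (hA : A.Nonempty)
    (hU : U.Nonempty) (hV : V.Nonempty) (hW : W.Nonempty) (X : α → ℤ) (Y : β → ℤ) (R : γ → ℤ)
    (R' : δ → ℤ) (hX : ∀ x ∈ A, X x ≠ 0) (hY : ∀ x ∈ U, Y x ≠ 0) :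
    ce (A ×ˢ (U ×ˢ V)) (fun s => Y s.2.1 * R s.2.2) (fun s => X s.1 * Y s.2.1) ≤
      h (A ×ˢ W) (fun s => X s.1 * R' s.2) + h (A ×ˢ U) (fun s => X s.1 * Y s.2) +
      h (V ×ˢ W) (fun s => R s.1 * R' s.2) -
      h ((A ×ˢ (U ×ˢ V)) ×ˢ W) (fun s => X s.1.1 * (Y s.1.2.1 * R s.1.2.2) * R' s.2) -
      h W R' := by
  have hUV : (U ×ˢ V).Nonempty := hU.product hV
  have hAW : (A ×ˢ W).Nonempty := hA.product hW
  have hAU : (A ×ˢ U).Nonempty := hA.product hU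
  have hVW : (V ×ˢ W).Nonempty := hV.product hW
  have hAUV : (A ×ˢ (U ×ˢ V)).Nonempty := hA.product hUV
  obtain ⟨S, hS⟩ : ∃ S, S = (A ×ˢ (U ×ˢ V)) ×ˢ W := ⟨_, rfl⟩
  have hmem : ∀ s ∈ S, s.1.1 ∈ A ∧ s.1.2.1 ∈ U := by
    intro s hs
    rw [hS, mem_product, mem_product, mem_product] at hs
    exact ⟨hs.1.1, hs.1.2.1⟩
  -- (i)
  have h1 := submod S (fun s => (Y s.1.2.1 * R s.1.2.2, X s.1.1 * Y s.1.2.1))
    (fun s => (X s.1.1, (Y s.1.2.1, R s.1.2.2))) (fun s => X s.1.1 * R' s.2) (by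
      intro x _ y _ hxy
      simp only [Prod.mk.injEq] at hxy ⊢
      obtain ⟨e1, e2, e3⟩ := hxy
      exact ⟨by rw [e2, e3], by rw [e1, e2]⟩)
  have h2 : h S (fun s => ((X s.1.1, (Y s.1.2.1, R s.1.2.2)), X s.1.1 * R' s.2)) =
      h (A ×ˢ (U ×ˢ V)) (fun s => (X s.1, (Y s.2.1, R s.2.2))) + h W R' := by
    rw [← h_prod (A ×ˢ (U ×ˢ V)) W hAUV hW (fun s => (X s.1, (Y s.2.1, R s.2.2))) R', ← hS]
    refine h_congr fun x hx y hy => ?_
    simp only [Prod.mk.injEq]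
    constructor
    · rintro ⟨⟨e1, e2, e3⟩, e4⟩
      rw [e1] at e4
      exact ⟨⟨e1, e2, e3⟩, mul_left_cancel₀ (hX _ (hmem y hy).1) e4⟩
    · rintro ⟨⟨e1, e2, e3⟩, e4⟩
      exact ⟨⟨e1, e2, e3⟩, by rw [e1, e4]⟩
  have h3 : h S (fun s => (X s.1.1, (Y s.1.2.1, R s.1.2.2))) =
      h (A ×ˢ (U ×ˢ V)) (fun s => (X s.1, (Y s.2.1, R s.2.2))) := by
    rw [hS]
    exact h_fst (A ×ˢ (U ×ˢ V)) W hAUV hW (fun s => (X s.1, (Y s.2.1, R s.2.2)))
  have h4 : h S (fun s => (Y s.1.2.1 * R s.1.2.2, X s.1.1 * Y s.1.2.1)) =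
      h (A ×ˢ (U ×ˢ V)) (fun s => (Y s.2.1 * R s.2.2, X s.1 * Y s.2.1)) := by
    rw [hS]
    exact h_fst (A ×ˢ (U ×ˢ V)) W hAUV hW (fun s => (Y s.2.1 * R s.2.2, X s.1 * Y s.2.1))
  -- (ii)
  have h5 := submod S
    (fun s => X s.1.1 * (Y s.1.2.1 * R s.1.2.2) * R' s.2)
    (fun s => (Y s.1.2.1 * R s.1.2.2, X s.1.1 * R' s.2)) (fun s => X s.1.1 * Y s.1.2.1) (by
      intro x _ y _ hxy
      obtain ⟨e1, e2⟩ := Prod.mk.inj hxy
      calc X x.1.1 * (Y x.1.2.1 * R x.1.2.2) * R' x.2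
          = (Y x.1.2.1 * R x.1.2.2) * (X x.1.1 * R' x.2) := by ring
        _ = (Y y.1.2.1 * R y.1.2.2) * (X y.1.1 * R' y.2) := by rw [e1, e2]
        _ = X y.1.1 * (Y y.1.2.1 * R y.1.2.2) * R' y.2 := by ring)
  have h6 : h S (fun s => ((Y s.1.2.1 * R s.1.2.2, X s.1.1 * R' s.2), X s.1.1 * Y s.1.2.1)) =
      h S (fun s => ((Y s.1.2.1 * R s.1.2.2, X s.1.1 * Y s.1.2.1), X s.1.1 * R' s.2)) := by
    refine h_congr fun x hx y hy => ?_
    simp only [Prod.mk.injEq]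
    tauto
  have h7 : h S (fun s => (Y s.1.2.1 * R s.1.2.2, X s.1.1 * R' s.2)) =
      h (U ×ˢ V) (fun s => Y s.1 * R s.2) + h (A ×ˢ W) (fun s => X s.1 * R' s.2) := by
    rw [← h_prod (U ×ˢ V) (A ×ˢ W) hUV hAW (fun s => Y s.1 * R s.2) (fun s => X s.1 * R' s.2)]
    symm
    refine h_rearr S ((U ×ˢ V) ×ˢ (A ×ˢ W)) (fun s => (s.1.2, (s.1.1, s.2))) ?_ ?_ _
    · rintro ⟨⟨a, b, c⟩, w⟩ _ ⟨⟨a', b', c'⟩, w'⟩ _ hh
      simp only [Prod.mk.injEq] at hh ⊢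
      tauto
    · rw [hS]
      ext ⟨⟨u, v⟩, ⟨a, w⟩⟩
      simp only [mem_image, mem_product, Prod.mk.injEq, Prod.exists]
      constructor
      · rintro ⟨a', u', v', w', ⟨⟨h1, h2, h3⟩, h4⟩, ⟨rfl, rfl⟩, rfl, rfl⟩
        exact ⟨⟨h2, h3⟩, h1, h4⟩
      · rintro ⟨⟨h2, h3⟩, h1, h4⟩
        exact ⟨a, u, v, w, ⟨⟨h1, h2, h3⟩, h4⟩, ⟨rfl, rfl⟩, rfl, rfl⟩
  have h8 : h S (fun s => (X s.1.1 * (Y s.1.2.1 * R s.1.2.2) * R' s.2, X s.1.1 * Y s.1.2.1)) =
      h (A ×ˢ U) (fun s => X s.1 * Y s.2) + h (V ×ˢ W) (fun s => R s.1 * R' s.2) := by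
    rw [← h_prod (A ×ˢ U) (V ×ˢ W) hAU hVW (fun s => X s.1 * Y s.2) (fun s => R s.1 * R' s.2)]
    rw [h_rearr S ((A ×ˢ U) ×ˢ (V ×ˢ W)) (fun s => ((s.1.1, s.1.2.1), (s.1.2.2, s.2)))]
    · refine h_congr fun x hx y hy => ?_
      simp only [Prod.mk.injEq]
      have e0 : X y.1.1 * Y y.1.2.1 ≠ 0 := mul_ne_zero (hX _ (hmem y hy).1) (hY _ (hmem y hy).2)
      constructor
      · rintro ⟨e1, e2⟩
        refine ⟨e2, ?_⟩
        have e3 : (X y.1.1 * Y y.1.2.1) * (R x.1.2.2 * R' x.2) =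
            (X y.1.1 * Y y.1.2.1) * (R y.1.2.2 * R' y.2) := by
          calc (X y.1.1 * Y y.1.2.1) * (R x.1.2.2 * R' x.2)
              = (X x.1.1 * Y x.1.2.1) * (R x.1.2.2 * R' x.2) := by rw [e2]
            _ = X x.1.1 * (Y x.1.2.1 * R x.1.2.2) * R' x.2 := by ring
            _ = X y.1.1 * (Y y.1.2.1 * R y.1.2.2) * R' y.2 := e1
            _ = _ := by ring
        exact mul_left_cancel₀ e0 e3
      · rintro ⟨e1, e2⟩
        refine ⟨?_, e1⟩
        calc X x.1.1 * (Y x.1.2.1 * R x.1.2.2) * R' x.2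
            = (X x.1.1 * Y x.1.2.1) * (R x.1.2.2 * R' x.2) := by ring
          _ = (X y.1.1 * Y y.1.2.1) * (R y.1.2.2 * R' y.2) := by rw [e1, e2]
          _ = _ := by ring
    · rintro ⟨⟨a, b, c⟩, w⟩ _ ⟨⟨a', b', c'⟩, w'⟩ _ hh
      simp only [Prod.mk.injEq] at hh ⊢
      tauto
    · rw [hS]
      ext ⟨⟨a, u⟩, ⟨v, w⟩⟩
      simp only [mem_image, mem_product, Prod.mk.injEq, Prod.exists]
      constructor
      · rintro ⟨a', u', v', w', ⟨⟨h1, h2, h3⟩, h4⟩, ⟨rfl, rfl⟩, rfl, rfl⟩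
        exact ⟨⟨h1, h2⟩, h3, h4⟩
      · rintro ⟨⟨h1, h2⟩, h3, h4⟩
        exact ⟨a, u, v, w, ⟨⟨h1, h2, h3⟩, h4⟩, ⟨rfl, rfl⟩, rfl, rfl⟩
  have h9 : h (A ×ˢ (U ×ˢ V)) (fun s => Y s.2.1 * R s.2.2) =
      h (U ×ˢ V) (fun s => Y s.1 * R s.2) :=
    h_snd A (U ×ˢ V) hA hUV (fun s => Y s.1 * R s.2)
  unfold ce
  rw [h2, h3, h4] at h1
  rw [h6, h7, h8] at h5
  rw [h9, ← hS]
  linarith

/-- the entropy of the one factor given the product -/
lemma ce_factor (U : Finset β) (V : Finset γ) (hU : U.Nonempty) (hV : V.Nonempty) (Y : β → ℤ)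
    (R : γ → ℤ) (hY : ∀ x ∈ U, Y x ≠ 0) :
    ce (U ×ˢ V) (fun s => Y s.1 * R s.2) (fun s => Y s.1) =
      h U Y + h V R - h (U ×ˢ V) (fun s => Y s.1 * R s.2) := by
  unfold ce
  rw [← h_prod U V hU hV Y R]
  congr 1
  refine h_congr fun x hx y hy => ?_
  simp only [Prod.mk.injEq]
  constructor
  · rintro ⟨e1, e2⟩
    rw [e2] at e1
    exact ⟨e2, mul_left_cancel₀ (hY _ (mem_product.1 hy).1) e1⟩
  · rintro ⟨e1, e2⟩
    exact ⟨by rw [e1, e2], e1⟩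

/-- `F` on `S` is the product of an `n`-tuple of independent elements of `A` -/
def IsT (A : Finset ℤ) (S : Finset σ) (F : σ → ℤ) (n : ℕ) : Prop :=
  ∃ e : σ → (Fin n → ℤ), (∀ x ∈ S, ∀ y ∈ S, e x = e y → x = y) ∧ S.image e = tu n A ∧
    ∀ x ∈ S, F x = ∏ i, e x i

/-- the entropy of the product of `n` elements -/
noncomputable def Hn (A : Finset ℤ) (n : ℕ) : ℝ := h (tu n A) (fun f => ∏ i, f i)

lemma IsT.h_eq {A : Finset ℤ} {S : Finset σ} {F : σ → ℤ} {n : ℕ} (hT : IsT A S F n) :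
    h S F = Hn A n := by
  obtain ⟨e, h1, h2, h3⟩ := hT
  unfold Hn
  rw [h_rearr S (tu n A) e h1 h2]
  refine h_congr fun x hx y hy => ?_
  rw [h3 x hx, h3 y hy]

lemma IsT.tu (A : Finset ℤ) (n : ℕ) : IsT A (tu n A) (fun f => ∏ i, f i) n :=
  ⟨fun f => f, fun _ _ _ _ hh => hh, by simp, fun _ _ => rfl⟩

lemma IsT.one (A : Finset ℤ) : IsT A A (fun x => x) 1 := by
  refine ⟨fun x _ => x, fun x _ y _ hh => congrFun hh 0, ?_, fun x _ => by simp⟩
  ext f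
  rw [mem_image, mem_tu]
  constructor
  · rintro ⟨x, hx, rfl⟩ _
    exact hx
  · intro hf
    refine ⟨f 0, hf 0, ?_⟩
    funext i
    rw [Subsingleton.elim i 0]

lemma IsT.mul {A : Finset ℤ} {S : Finset σ} {F : σ → ℤ} {m : ℕ} {S' : Finset τ} {F' : τ → ℤ}
    {n : ℕ} (h1 : IsT A S F m) (h2 : IsT A S' F' n) :
    IsT A (S ×ˢ S') (fun s => F s.1 * F' s.2) (m + n) := by
  obtain ⟨e, a1, a2, a3⟩ := h1
  obtain ⟨e', b1, b2, b3⟩ := h2
  refine ⟨fun s => Fin.append (e s.1) (e' s.2), ?_, ?_, ?_⟩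
  · rintro ⟨x, x'⟩ hx ⟨y, y'⟩ hy hh
    obtain ⟨hx1, hx2⟩ := mem_product.1 hx
    obtain ⟨hy1, hy2⟩ := mem_product.1 hy
    have c1 : e x = e y := by
      funext i
      have := congrFun hh (Fin.castAdd n i)
      simpa using this
    have c2 : e' x' = e' y' := by
      funext i
      have := congrFun hh (Fin.natAdd m i)
      simpa using this
    exact Prod.ext (a1 x hx1 y hy1 c1) (b1 x' hx2 y' hy2 c2)
  · ext f
    rw [mem_image, mem_tu]
    constructor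
    · rintro ⟨⟨x, x'⟩, hx, rfl⟩ i
      obtain ⟨hx1, hx2⟩ := mem_product.1 hx
      have c1 : e x ∈ KD.tu m A := by rw [← a2]; exact mem_image_of_mem e hx1
      have c2 : e' x' ∈ KD.tu n A := by rw [← b2]; exact mem_image_of_mem e' hx2
      rw [mem_tu] at c1 c2
      refine Fin.addCases (fun j => ?_) (fun j => ?_) i
      · simpa using c1 j
      · simpa using c2 j
    · intro hf
      have c1 : (fun i => f (Fin.castAdd n i)) ∈ KD.tu m A := mem_tu.2 fun i => hf _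
      have c2 : (fun i => f (Fin.natAdd m i)) ∈ KD.tu n A := mem_tu.2 fun i => hf _
      rw [← a2, mem_image] at c1
      rw [← b2, mem_image] at c2
      obtain ⟨x, hx, hx'⟩ := c1
      obtain ⟨y, hy, hy'⟩ := c2
      refine ⟨(x, y), mem_product.2 ⟨hx, hy⟩, ?_⟩
      funext i
      refine Fin.addCases (fun j => ?_) (fun j => ?_) i
      · simp [hx']
      · simp [hy']
  · rintro ⟨x, x'⟩ hx
    obtain ⟨hx1, hx2⟩ := mem_product.1 hx
    simp only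
    rw [a3 x hx1, b3 x' hx2, Fin.prod_univ_add]
    simp

end gen

section facts

variable {A : Finset ℤ}

lemma prod_ne_zero_tu (h0 : (0 : ℤ) ∉ A) (n : ℕ) : ∀ f ∈ tu n A, (∏ i, f i) ≠ 0 := by
  intro f hf
  rw [mem_tu] at hf
  exact Finset.prod_ne_zero_iff.2 fun i _ hi => h0 (hi ▸ hf i)

lemma id_ne_zero (h0 : (0 : ℤ) ∉ A) : ∀ x ∈ A, (fun x : ℤ => x) x ≠ 0 := by
  intro x hx hx0
  exact h0 (hx0 ▸ hx)

lemma Hn_zero (A : Finset ℤ) : Hn A 0 = 0 := by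
  unfold Hn
  exact h_const _ _ fun x _ y _ => by simp

lemma Hn_one (A : Finset ℤ) : Hn A 1 = Real.log A.card := by
  rw [← (IsT.one A).h_eq]
  exact h_inj A _ fun _ _ _ _ hh => hh

lemma Hn_mono (hA : A.Nonempty) (h0 : (0 : ℤ) ∉ A) (n : ℕ) : Hn A n ≤ Hn A (n + 1) := by
  have h1 := h_mul_ge A (tu n A) hA (tu_nonempty hA) (fun x => x) (fun f => ∏ i, f i)
    (id_ne_zero h0)
  have h2 := ((IsT.one A).mul (IsT.tu A n)).h_eq
  rw [add_comm 1 n] at h2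
  rw [h2] at h1
  exact h1

lemma Hn_conc (hA : A.Nonempty) (h0 : (0 : ℤ) ∉ A) (n : ℕ) :
    Hn A (n + 2) + Hn A n ≤ 2 * Hn A (n + 1) := by
  have h1 := kv A A (tu n A) hA hA (tu_nonempty hA) (fun x => x) (fun x => x)
    (fun f => ∏ i, f i) (id_ne_zero h0)
  have h2 := ((IsT.one A).mul (IsT.tu A n)).h_eq
  have h3 := ((IsT.one A).mul ((IsT.one A).mul (IsT.tu A n))).h_eq
  have e1 : 1 + n = n + 1 := by omega
  have e2 : 1 + (1 + n) = n + 2 := by omega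
  rw [e1] at h2
  rw [e2] at h3
  rw [h2, h3] at h1
  have h4 : h (tu n A) (fun f => ∏ i, f i) = Hn A n := rfl
  rw [h4] at h1
  linarith

lemma Hn_main (hA : A.Nonempty) (h0 : (0 : ℤ) ∉ A) (k r : ℕ) :
    ce (A ×ˢ (tu k A ×ˢ tu (r + 1) A)) (fun s => (∏ i, s.2.1 i) * ∏ i, s.2.2 i)
            (fun s => s.1 * ∏ i, s.2.1 i) -
          ce (tu k A ×ˢ tu (r + 1) A) (fun s => (∏ i, s.1 i) * ∏ i, s.2 i)
            (fun s => ∏ i, s.1 i) ≤
      (Hn A (k + r + 1) - Hn A (k + r)) + (Hn A (k + 1) - Hn A k) +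
      (Hn A (r + 1 + k) - Hn A (r + 1)) -
      (Hn A (r + 1 + (k + r) + (k + 1)) - Hn A (r + 1 + (k + r))) := by
  have hU := tu_nonempty (k := k) hA
  have hV := tu_nonempty (k := r + 1) hA
  have hW := tu_nonempty (k := k + r) hA
  have h1 := key3 A (tu k A) (tu (r + 1) A) (tu (k + r) A) hA hU hV hW (fun x => x)
    (fun f => ∏ i, f i) (fun f => ∏ i, f i) (fun f => ∏ i, f i) (id_ne_zero h0)
    (prod_ne_zero_tu h0 k)
  have h2 := ce_factor (tu k A) (tu (r + 1) A) hU hV (fun f => ∏ i, f i) (fun f => ∏ i, f i)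
    (prod_ne_zero_tu h0 k)
  have a1 := ((IsT.one A).mul (IsT.tu A (k + r))).h_eq
  have a2 := ((IsT.one A).mul (IsT.tu A k)).h_eq
  have a3 := ((IsT.tu A (r + 1)).mul (IsT.tu A (k + r))).h_eq
  have a4 := (((IsT.one A).mul ((IsT.tu A k).mul (IsT.tu A (r + 1)))).mul
    (IsT.tu A (k + r))).h_eq
  have a5 := ((IsT.tu A k).mul (IsT.tu A (r + 1))).h_eq
  have a6 := (IsT.tu A (k + r)).h_eq
  have a7 := (IsT.tu A k).h_eq
  have a8 := (IsT.tu A (r + 1)).h_eq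
  have e1 : 1 + (k + r) = k + r + 1 := by omega
  have e2 : 1 + k = k + 1 := by omega
  have e4 : 1 + (k + (r + 1)) + (k + r) = r + 1 + (k + r) + (k + 1) := by omega
  have e5 : k + (r + 1) = r + 1 + k := by omega
  rw [e1] at a1
  rw [e2] at a2
  rw [e4] at a4
  rw [e5] at a5
  rw [a1, a2, a3, a4, a6] at h1
  rw [a5, a7, a8] at h2
  rw [h2]
  have e6 : k + r + 1 = r + 1 + k := by omega
  rw [e6] at h1 ⊢
  linarith

lemma Hn_le (hA : A.Nonempty) (k : ℕ) : Hn A k ≤ Real.log (pk k A).card := by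
  unfold Hn pk
  exact h_le_log' (tu_nonempty hA) _

end facts

section arith

variable {H : ℕ → ℝ}

lemma d_anti (hc : ∀ n, H (n + 2) + H n ≤ 2 * H (n + 1)) :
    Antitone (fun n => H (n + 1) - H n) :=
  antitone_nat_of_succ_le fun n => by
    have := hc n
    change H (n + 1 + 1) - H (n + 1) ≤ H (n + 1) - H n
    have e : n + 1 + 1 = n + 2 := by omega
    rw [e]
    linarith

lemma H_add_le (hd : Antitone (fun n => H (n + 1) - H n)) (m i : ℕ) :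
    H (m + i) - H m ≤ i * (H (m + 1) - H m) := by
  induction i with
  | zero => simp
  | succ i ih =>
    have h1 := hd (Nat.le_add_right m i)
    simp only at h1
    rw [← add_assoc]
    push_cast
    linarith

lemma H_add_ge (hd : Antitone (fun n => H (n + 1) - H n)) (m i : ℕ) :
    (i + 1 : ℝ) * (H (m + i + 1) - H (m + i)) ≤ H (m + (i + 1)) - H m := by
  induction i with
  | zero => simp
  | succ i ih =>
    have h1 := hd (Nat.le_succ (m + i))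
    simp only at h1
    have e1 : m + (i + 1) = m + i + 1 := by omega
    have e2 : m + (i + 1 + 1) = m + i + 1 + 1 := by omega
    have e3 : (m + i).succ = m + i + 1 := rfl
    rw [e3] at h1
    rw [e1] at ih ⊢
    rw [e2]
    push_cast
    have h2 : (0 : ℝ) ≤ (i : ℝ) + 1 := by positivity
    have h3 := mul_le_mul_of_nonneg_left h1 h2
    linarith

/-- the radii -/
def rad (k : ℕ) : ℕ → ℕ
  | 0 => 0
  | j + 1 => 2 * k + 2 * rad k j

lemma rad_mono (k : ℕ) (hk : 1 ≤ k) : Monotone (rad k) :=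
  monotone_nat_of_le_succ fun j => by
    change rad k j ≤ 2 * k + 2 * rad k j
    omega

lemma pigeon (hm : ∀ n, H n ≤ H (n + 1)) (hd : Antitone (fun n => H (n + 1) - H n)) (k : ℕ)
    {ε a : ℝ} (ha : H 1 - H 0 ≤ a) (J : ℕ) (hJ : a < J * ε) :
    ∃ j < J, (H (rad k j + 1 + 1) - H (rad k j + 1)) -
      (H (rad k (j + 1) + 1 + 1) - H (rad k (j + 1) + 1)) ≤ ε := by
  by_contra hcon
  push Not at hcon
  have h1 : ∀ i ≤ J, i * ε ≤ (H (rad k 0 + 1 + 1) - H (rad k 0 + 1)) -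
      (H (rad k i + 1 + 1) - H (rad k i + 1)) := by
    intro i
    induction i with
    | zero => intro _; simp
    | succ i ih =>
      intro hi
      have h2 := ih (by omega)
      have h3 := hcon i (by omega)
      push_cast
      linarith
  have h2 := h1 J le_rfl
  have h3 := hm (rad k J + 1)
  have h4 := hd (Nat.zero_le (rad k 0 + 1))
  simp only [zero_add] at h4
  linarith

end arith

/-- **The growth.** -/
theorem growth (k : ℕ) (hk : 1 ≤ k) {η κ : ℝ} (hη : 0 < η) (hκ : 0 < κ) :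
    ∃ N : ℕ, ∀ A : Finset ℤ, A.Nonempty → (0 : ℤ) ∉ A →
      Real.log (pk (k + 1) A).card ≤ (k + 1 - η) * Real.log A.card →
      ∃ r : ℕ, 1 ≤ r ∧ r ≤ N ∧
        ce (A ×ˢ (tu k A ×ˢ tu r A)) (fun s => (∏ i, s.2.1 i) * ∏ i, s.2.2 i)
            (fun s => s.1 * ∏ i, s.2.1 i) -
          ce (tu k A ×ˢ tu r A) (fun s => (∏ i, s.1 i) * ∏ i, s.2 i) (fun s => ∏ i, s.1 i) ≤
        (1 - η / (k + 1) + κ) * Real.log A.card := by
  obtain ⟨J, hJ⟩ := exists_nat_gt ((k + 1) / κ)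
  refine ⟨rad k J + 1, fun A hA h0 hgr => ?_⟩
  have hAc : (1 : ℝ) ≤ A.card := by exact_mod_cast card_pos.2 hA
  obtain ⟨a, ha⟩ : ∃ a, a = Real.log A.card := ⟨_, rfl⟩
  have ha0 : 0 ≤ a := by rw [ha]; exact Real.log_nonneg hAc
  rw [← ha] at hgr ⊢
  have hm := Hn_mono hA h0
  have hd := d_anti (Hn_conc hA h0)
  have hH0 := Hn_zero A
  have hH1 : Hn A 1 = a := by rw [Hn_one, ha]
  have hk0 : (0 : ℝ) < (k : ℝ) + 1 := by positivity
  -- the growth at `k`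
  have h5 : Hn A (k + 1) - Hn A k ≤ (1 - η / (k + 1)) * a := by
    have h1 := H_add_ge hd 0 k
    simp only [zero_add] at h1
    rw [hH0, sub_zero] at h1
    have h2 := (h1.trans (Hn_le hA (k + 1))).trans hgr
    have h3 : (1 - η / (k + 1)) * a = ((k + 1 - η) * a) / (k + 1) := by field_simp
    rw [h3, le_div_iff₀ hk0]
    linarith
  -- the pigeonhole principle
  obtain ⟨j, hjJ, hj⟩ : ∃ j < J, (Hn A (rad k j + 1 + 1) - Hn A (rad k j + 1)) -
      (Hn A (rad k (j + 1) + 1 + 1) - Hn A (rad k (j + 1) + 1)) ≤ κ * a / (k + 1) := by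
    rcases ha0.eq_or_lt with h1 | h1
    · -- `a = 0`: all differences vanish
      have h2 : ∀ n, Hn A (n + 1) - Hn A n ≤ 0 := by
        intro n
        have h3 := hd (Nat.zero_le n)
        simp only [zero_add] at h3
        rw [hH0, hH1] at h3
        linarith
      refine ⟨0, ?_, ?_⟩
      · by_contra h3
        have h4 : J = 0 := by omega
        rw [h4] at hJ
        have h5 : (0 : ℝ) < (k + 1) / κ := by positivity
        simp only [Nat.cast_zero] at hJ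
        linarith
      · rw [← h1, mul_zero, zero_div]
        have h3 := h2 (rad k 0 + 1)
        have h4 := hm (rad k (0 + 1) + 1)
        linarith
    · refine pigeon hm hd k (a := a) (by rw [hH0, hH1]; linarith) J ?_
      rw [div_lt_iff₀ hκ] at hJ
      have h2 : (J : ℝ) * (κ * a / (k + 1)) = (J * κ) * a / (k + 1) := by ring
      rw [h2, lt_div_iff₀ hk0]
      nlinarith
  refine ⟨rad k j + 1, by omega, ?_, ?_⟩
  · have := rad_mono k hk hjJ.le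
    omega
  · have h6 := Hn_main hA h0 k (rad k j)
    refine h6.trans ?_
    obtain ⟨r, hr⟩ : ∃ r, r = rad k j := ⟨_, rfl⟩
    have hr' : rad k (j + 1) = 2 * k + 2 * r := by rw [hr]; rfl
    rw [hr'] at hj
    rw [← hr] at hj ⊢
    have h7 : Hn A (k + r + 1) - Hn A (k + r) ≤ Hn A (r + 1 + 1) - Hn A (r + 1) :=
      hd (show r + 1 ≤ k + r by omega)
    have h8 := H_add_le hd (r + 1) k
    have h9 := H_add_ge hd (r + 1 + (k + r)) k
    have e1 : r + 1 + (k + r) + k = 2 * k + 2 * r + 1 := by omega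
    rw [e1] at h9
    have h10 := mul_le_mul_of_nonneg_left hj hk0.le
    have e2 : ((k : ℝ) + 1) * (κ * a / (k + 1)) = κ * a := by field_simp
    rw [e2] at h10
    linarith

end Pool.Agent.T2H12.KO
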