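import Mathlib
import Pool.Agent.T2H12.KD.Main

/-!
# The part outside a basis is determined by the product (package NOISE)
-/

set_option autoImplicit false

namespace Pool.Agent.T2H12.KO

open Finset
open scoped Classical
open Pool.Agent.Y359.PE Pool.Agent.T2H12.KF Pool.Agent.T2H12.KD

/-- few primes with most of the entropy of the exponents of a function on a sample space -/
lemma nz_basis {α : Type*} (S : Finset α) (T : α → ℤ) (R : Finset ℕ) (τ₀ : ℝ) : ∃ P ⊆ R,
    τ₀ * P.card ≤ h S (fun x => wp P (T x)) ∧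
      ∀ q ∈ R \ P, ce S (fun x => wp P (T x)) (fun x => fa (T x) q) ≤ τ₀ := by
  obtain ⟨P, hP, hmax⟩ := exists_max_image R.powerset
    (fun P => h S (fun x => wp P (T x)) - τ₀ * P.card) ⟨∅, empty_mem_powerset _⟩
  refine ⟨P, mem_powerset.1 hP, ?_, ?_⟩
  · have h1 := hmax ∅ (empty_mem_powerset _)
    have h2 := h_nonneg S (fun x => wp ∅ (T x))
    simp only [card_empty, Nat.cast_zero, mul_zero, sub_zero] at h1
    linarith
  · intro q hq
    obtain ⟨hq1, hq2⟩ := mem_sdiff.1 hq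
    have h1 := hmax (insert q P) (mem_powerset.2 (insert_subset hq1 (mem_powerset.1 hP)))
    rw [card_insert_of_notMem hq2] at h1
    push_cast at h1
    have h2 : h S (fun a => (wp P (T a), fa (T a) q)) = h S (fun a => wp (insert q P) (T a)) := by
      refine h_congr fun x _ y _ => ?_
      rw [Prod.mk.injEq, wp_eq_iff, wp_eq_iff]
      constructor
      · rintro ⟨h3, h4⟩ p hp
        rcases mem_insert.1 hp with rfl | h5
        · exact h4
        · exact h3 p h5
      · intro h3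
        exact ⟨fun p hp => h3 p (mem_insert_of_mem hp), h3 q (mem_insert_self _ _)⟩
    unfold ce
    rw [h2]
    linarith

/-- centered exponents of a function on a sample space -/
lemma nz_center {α : Type*} (A : Finset α) {Ω : Type*} (w : α → Ω) (f : α → ℕ → ℕ) :
    ∃ e : Ω → ℕ → ℕ, ∀ q : ℕ,
    (nz A (fun a => (f a q : ℤ) - e (w a) q) : ℝ) ≤ ce A w (fun a => f a q) * A.card := by
  have h1 : ∀ (ω : Ω) (q : ℕ), ∃ v : ℕ,
      (((A.filter fun a => w a = ω).filter fun a => f a q ≠ v).card : ℝ) ≤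
      (A.filter fun a => w a = ω).card * h (A.filter fun a => w a = ω) (fun a => f a q) :=
    fun ω q => exists_mode (A.filter fun a => w a = ω) (fun a => f a q)
  choose e he using h1
  refine ⟨e, fun q => ?_⟩
  rcases A.eq_empty_or_nonempty with h0 | hA
  · subst h0
    simp [nz]
  have hc : (0 : ℝ) < A.card := by exact_mod_cast card_pos.2 hA
  have h2 := avg_cl A w (fun u => if f u q ≠ e (w u) q then (1 : ℝ) else 0)
  have h3 : (nz A (fun a => (f a q : ℤ) - e (w a) q) : ℝ) =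
      ∑ u ∈ A, if f u q ≠ e (w u) q then (1 : ℝ) else 0 := by
    rw [← sum_filter, sum_const, nsmul_eq_mul, mul_one]
    congr 1
    refine nz_eq _ _ _ fun a => ?_
    rw [mem_filter]
    refine and_congr_right fun _ => ?_
    omega
  rw [h3, ← h2]
  have h4 : ∀ u ∈ A, (∑ v ∈ cl A w u, if f v q ≠ e (w v) q then (1 : ℝ) else 0) / fc A w u ≤
      h (cl A w u) (fun a => f a q) := by
    intro u hu
    rw [div_le_iff₀ (fc_posR hu)]
    have h5 := he (w u) q
    have h6 : ∑ v ∈ cl A w u, (if f v q ≠ e (w v) q then (1 : ℝ) else 0) =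
        (((A.filter fun a => w a = w u).filter fun a => f a q ≠ e (w u) q).card : ℝ) := by
      rw [← sum_filter, sum_const, nsmul_eq_mul, mul_one]
      congr 2
      ext v
      rw [mem_filter, mem_filter, mem_cl, mem_filter]
      constructor
      · rintro ⟨⟨h7, h8⟩, h9⟩
        rw [h8] at h9
        exact ⟨⟨h7, h8⟩, h9⟩
      · rintro ⟨⟨h7, h8⟩, h9⟩
        rw [← h8] at h9
        exact ⟨⟨h7, h8⟩, h9⟩
    rw [h6]
    refine h5.trans (le_of_eq ?_)
    rw [mul_comm]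
    rfl
  refine (sum_le_sum h4).trans (le_of_eq ?_)
  unfold ce
  rw [chain, div_mul_cancel₀ _ hc.ne']

/-- the entropy of an integer is that of the exponents, up to the sign -/
lemma h_int_le {α : Type*} {Ω : Type*} (S : Finset α) (hS : S.Nonempty) (Y : α → ℤ) (R : Finset ℕ)
    (h0 : ∀ x ∈ S, Y x ≠ 0) (hR : ∀ x ∈ S, ∀ p, p ∉ R → fa (Y x) p = 0) (F : α → Ω)
    (hF : ∀ x ∈ S, ∀ y ∈ S, F x = F y → ∀ p ∈ R, fa (Y x) p = fa (Y y) p) :
    h S Y ≤ h S F + Real.log 2 := by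
  have h1 : h S Y ≤ h S (fun x => (F x, decide (0 < Y x))) := by
    refine h_mono _ _ _ fun x hx y hy hxy => ?_
    obtain ⟨h2, h3⟩ := Prod.mk.inj hxy
    refine eq_of_fa (h0 x hx) (h0 y hy) (decide_eq_decide.1 h3) fun p => ?_
    by_cases hp : p ∈ R
    · exact hF x hx y hy h2 p hp
    · rw [hR x hx p hp, hR y hy p hp]
  have h2 : h S (fun x => (F x, decide (0 < Y x))) = h S F + ce S F (fun x => decide (0 < Y x)) := by
    unfold ce
    ring
  have h3 := ce_le_h S F (fun x => decide (0 < Y x))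
  have h4 : h S (fun x => decide (0 < Y x)) ≤ Real.log 2 := by
    refine (h_le_log' hS _).trans (Real.log_le_log ?_ ?_)
    · exact_mod_cast card_pos.2 (hS.image _)
    · have : (S.image fun x => decide (0 < Y x)).card ≤ 2 := card_le_univ _
      exact_mod_cast this
  linarith

/-- the entropy of a prime of one factor given the basis part -/
lemma ce_fst_le {α β : Type*} (U : Finset α) (V : Finset β) (hU : U.Nonempty) (hV : V.Nonempty)
    (Y : α → ℤ) (R : β → ℤ) (hY : ∀ x ∈ U, Y x ≠ 0) (hR : ∀ x ∈ V, R x ≠ 0) (P : Finset ℕ)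
    (q : ℕ) : ce U (fun x => wp P (Y x)) (fun x => fa (Y x) q) ≤
      ce (U ×ˢ V) (fun s => wp P (Y s.1 * R s.2)) (fun s => fa (Y s.1 * R s.2) q) := by
  have h1 : ce (U ×ˢ V) (fun s => ((wp P (Y s.1)), (wp P (R s.2), fa (R s.2) q)))
      (fun s => fa (Y s.1 * R s.2) q) ≤
      ce (U ×ˢ V) (fun s => wp P (Y s.1 * R s.2)) (fun s => fa (Y s.1 * R s.2) q) := by
    refine ce_anti _ _ _ _ fun x hx y hy hxy => ?_
    obtain ⟨hx1, hx2⟩ := mem_product.1 hx
    obtain ⟨hy1, hy2⟩ := mem_product.1 hy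
    simp only [Prod.mk.injEq] at hxy
    obtain ⟨h2, h3, -⟩ := hxy
    rw [wp_eq_iff] at h2 h3 ⊢
    intro p hp
    rw [fa_mul (hY _ hx1) (hR _ hx2), fa_mul (hY _ hy1) (hR _ hy2), h2 p hp, h3 p hp]
  refine le_trans (le_of_eq ?_) h1
  unfold ce
  have e1 : h (U ×ˢ V) (fun s => ((wp P (Y s.1), (wp P (R s.2), fa (R s.2) q)),
      fa (Y s.1 * R s.2) q)) = h (U ×ˢ V) (fun s => ((wp P (Y s.1), fa (Y s.1) q),
      (wp P (R s.2), fa (R s.2) q))) := by
    refine h_congr fun x hx y hy => ?_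
    obtain ⟨hx1, hx2⟩ := mem_product.1 hx
    obtain ⟨hy1, hy2⟩ := mem_product.1 hy
    rw [fa_mul (hY _ hx1) (hR _ hx2), fa_mul (hY _ hy1) (hR _ hy2)]
    simp only [Prod.mk.injEq]
    constructor
    · rintro ⟨⟨h2, h3, h4⟩, h5⟩
      exact ⟨⟨h2, by omega⟩, h3, h4⟩
    · rintro ⟨⟨h2, h3⟩, h4, h5⟩
      exact ⟨⟨h2, h4, h5⟩, by omega⟩
  rw [e1, h_prod U V hU hV (fun x => (wp P (Y x), fa (Y x) q)) (fun x => (wp P (R x), fa (R x) q)),
    h_prod U V hU hV (fun x => wp P (Y x)) (fun x => (wp P (R x), fa (R x) q))]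
  ring

lemma h_swap {α β γ : Type*} (U : Finset α) (V : Finset β) (F : α × β → γ) :
    h (U ×ˢ V) F = h (V ×ˢ U) (fun s => F s.swap) := by
  have e1 : U ×ˢ V = (V ×ˢ U).image Prod.swap := by
    ext ⟨a, b⟩
    simp only [mem_product, mem_image, Prod.exists, Prod.swap_prod_mk, Prod.mk.injEq]
    constructor
    · rintro ⟨h1, h2⟩
      exact ⟨b, a, ⟨h2, h1⟩, rfl, rfl⟩
    · rintro ⟨b', a', ⟨h2, h1⟩, rfl, rfl⟩
      exact ⟨h1, h2⟩
  rw [e1, h_image _ _ (fun x _ y _ hxy => Prod.swap_injective hxy)]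

lemma ce_snd_le {α β : Type*} (U : Finset α) (V : Finset β) (hU : U.Nonempty) (hV : V.Nonempty)
    (Y : α → ℤ) (R : β → ℤ) (hY : ∀ x ∈ U, Y x ≠ 0) (hR : ∀ x ∈ V, R x ≠ 0) (P : Finset ℕ)
    (q : ℕ) : ce V (fun x => wp P (R x)) (fun x => fa (R x) q) ≤
      ce (U ×ˢ V) (fun s => wp P (Y s.1 * R s.2)) (fun s => fa (Y s.1 * R s.2) q) := by
  have h1 := ce_fst_le V U hV hU R Y hR hY P q
  refine h1.trans (le_of_eq ?_)
  unfold ce
  rw [h_swap U V, h_swap U V]
  simp only [Prod.fst_swap, Prod.snd_swap, mul_comm]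

/-- **The noise on a sample space.** -/
lemma noise_gen {α β : Type*} (U : Finset α) (V : Finset β) (hU : U.Nonempty) (hV : V.Nonempty)
    (Y : α → ℤ) (R : β → ℤ) (hY : ∀ x ∈ U, Y x ≠ 0) (hR : ∀ x ∈ V, R x ≠ 0) (J : Finset ℕ)
    (hYJ : ∀ x ∈ U, ∀ p, p ∉ J → fa (Y x) p = 0) (hRJ : ∀ x ∈ V, ∀ p, p ∉ J → fa (R x) p = 0)
    {τ θ : ℝ} (hτ : 0 < τ) (hθ : 0 < θ) (hθ1 : θ ≤ 1 / 3) :
    ∃ P ⊆ J, τ * P.card ≤ Real.log U.card + Real.log V.card ∧
      ce (U ×ˢ V) (fun s => (Y s.1 * R s.2, wp P (Y s.1))) (fun s => Y s.1) ≤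
        (2 / Real.log (1 / θ) + τ / θ) * (Real.log U.card + Real.log V.card) +
          2 * Real.log 2 := by
  obtain ⟨P, hPJ, hP1, hP2⟩ := nz_basis (U ×ˢ V) (fun s => Y s.1 * R s.2) J τ
  have hUV : (U ×ˢ V).Nonempty := hU.product hV
  have hUc : (0 : ℝ) < U.card := by exact_mod_cast card_pos.2 hU
  have hVc : (0 : ℝ) < V.card := by exact_mod_cast card_pos.2 hV
  refine ⟨P, hPJ, ?_, ?_⟩
  · refine hP1.trans ?_
    refine (h_le_log' hUV _).trans ?_
    rw [← Real.log_mul hUc.ne' hVc.ne']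
    refine Real.log_le_log ?_ ?_
    · exact_mod_cast card_pos.2 (hUV.image _)
    · have h1 : ((U ×ˢ V).image fun x => wp P (Y x.1 * R x.2)).card ≤ U.card * V.card := by
        rw [← card_product]
        exact card_image_le
      exact_mod_cast h1
  -- the centers
  obtain ⟨e, he⟩ := nz_center U (fun x => wp P (Y x)) (fun x q => fa (Y x) q)
  obtain ⟨e', he'⟩ := nz_center V (fun x => wp P (R x)) (fun x q => fa (R x) q)
  set Q := J \ P with hQ
  set X : α → ℕ → ℤ := fun u q => va (Y u) q - e (wp P (Y u)) q with hX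
  set X' : β → ℕ → ℤ := fun u q => va (R u) q - e' (wp P (R u)) q with hX'
  have hX1 : ∀ q ∈ Q, (nz U (fun u => X u q) : ℝ) ≤ τ * U.card := by
    intro q hq
    refine (he q).trans ?_
    refine mul_le_mul_of_nonneg_right ?_ hUc.le
    exact (ce_fst_le U V hU hV Y R hY hR P q).trans (hP2 q hq)
  have hX2 : ∀ q ∈ Q, (nz V (fun u => X' u q) : ℝ) ≤ τ * V.card := by
    intro q hq
    refine (he' q).trans ?_
    refine mul_le_mul_of_nonneg_right ?_ hVc.le
    exact (ce_snd_le U V hU hV Y R hY hR P q).trans (hP2 q hq)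
  have htwo := two_lab U V hU hV (fun x => wp P (Y x)) (fun x => wp P (R x)) X X' hθ hθ1 Q hX1 hX2
  set κ' := 2 / Real.log (1 / θ) + τ / θ with hκ'
  have hκ0 : 0 ≤ κ' := by
    have hl : 0 < Real.log (1 / θ) := by
      refine Real.log_pos ?_
      rw [lt_div_iff₀ hθ]
      linarith
    have : 0 ≤ 2 / Real.log (1 / θ) := by positivity
    have : 0 ≤ τ / θ := by positivity
    linarith
  set D₁ := ce U (fun x => wp P (Y x)) (mk Q X) with hD₁
  set D₂ := ce V (fun x => wp P (R x)) (mk Q X') with hD₂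
  -- the entropies of the integers
  have hall1 : h U Y ≤ h U (fun x => wp P (Y x)) + D₁ + Real.log 2 := by
    have h1 := h_int_le U hU Y J hY hYJ (fun x => (wp P (Y x), mk Q X x)) (by
      intro x _ y _ hxy p hp
      obtain ⟨h4, h5⟩ := Prod.mk.inj hxy
      by_cases hpP : p ∈ P
      · exact wp_eq_iff.1 h4 p hpP
      · have h6 := (mk_eq_iff.1 h5) p (mem_sdiff.2 ⟨hp, hpP⟩)
        simp only [hX] at h6
        rw [h4] at h6
        have h7 : va (Y x) p = va (Y y) p := by linarith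
        unfold va at h7
        exact_mod_cast h7)
    refine h1.trans (le_of_eq ?_)
    rw [hD₁]
    unfold ce
    ring
  have hall2 : h V R ≤ h V (fun x => wp P (R x)) + D₂ + Real.log 2 := by
    have h1 := h_int_le V hV R J hR hRJ (fun x => (wp P (R x), mk Q X' x)) (by
      intro x _ y _ hxy p hp
      obtain ⟨h4, h5⟩ := Prod.mk.inj hxy
      by_cases hpP : p ∈ P
      · exact wp_eq_iff.1 h4 p hpP
      · have h6 := (mk_eq_iff.1 h5) p (mem_sdiff.2 ⟨hp, hpP⟩)
        simp only [hX'] at h6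
        rw [h4] at h6
        have h7 : va (R x) p = va (R y) p := by linarith
        unfold va at h7
        exact_mod_cast h7)
    refine h1.trans (le_of_eq ?_)
    rw [hD₂]
    unfold ce
    ring
  have hD1 : D₁ ≤ Real.log U.card := by
    refine (ce_le_h _ _ _).trans ((h_le_log' hU _).trans (Real.log_le_log ?_ ?_))
    · exact_mod_cast card_pos.2 (hU.image _)
    · exact_mod_cast card_image_le
  have hD2 : D₂ ≤ Real.log V.card := by
    refine (ce_le_h _ _ _).trans ((h_le_log' hV _).trans (Real.log_le_log ?_ ?_))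
    · exact_mod_cast card_pos.2 (hV.image _)
    · exact_mod_cast card_image_le
  have hup : h (U ×ˢ V) (fun s => ((Y s.1 * R s.2, wp P (Y s.1)), Y s.1)) ≤ h U Y + h V R := by
    rw [← h_prod U V hU hV Y R]
    refine h_mono _ _ _ fun x _ y _ hxy => ?_
    obtain ⟨h1, h2⟩ := Prod.mk.inj hxy
    rw [h1, h2]
  have hlow : h U (fun x => wp P (Y x)) + h V (fun x => wp P (R x)) +
      ce (U ×ˢ V) (fun s => (wp P (Y s.1), wp P (R s.2)))
        (mk Q (fun s : α × β => X s.1 + X' s.2)) ≤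
      h (U ×ˢ V) (fun s => (Y s.1 * R s.2, wp P (Y s.1))) := by
    rw [← h_prod U V hU hV (fun x => wp P (Y x)) (fun x => wp P (R x))]
    have h1 : h (U ×ˢ V) (fun s => ((wp P (Y s.1), wp P (R s.2)),
        mk Q (fun s : α × β => X s.1 + X' s.2) s)) ≤
        h (U ×ˢ V) (fun s => (Y s.1 * R s.2, wp P (Y s.1))) := by
      refine h_mono _ _ _ fun x hx y hy hxy => ?_
      obtain ⟨hx1, hx2⟩ := mem_product.1 hx
      obtain ⟨hy1, hy2⟩ := mem_product.1 hy
      obtain ⟨h1, h2⟩ := Prod.mk.inj hxy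
      have h3 : ∀ p, fa (Y x.1) p + fa (R x.2) p = fa (Y y.1) p + fa (R y.2) p := by
        intro p
        rw [← fa_mul (hY _ hx1) (hR _ hx2), ← fa_mul (hY _ hy1) (hR _ hy2), h1]
      have h4 : wp P (R x.2) = wp P (R y.2) := by
        rw [wp_eq_iff] at h2 ⊢
        intro p hp
        have h5 := h2 p hp
        have h6 := h3 p
        omega
      rw [Prod.mk.injEq, Prod.mk.injEq]
      refine ⟨⟨h2, h4⟩, ?_⟩
      rw [mk_eq_iff]
      intro q _
      simp only [Pi.add_apply, hX, hX']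
      rw [h2, h4]
      have h5 : va (Y x.1) q + va (R x.2) q = va (Y y.1) q + va (R y.2) q := by
        unfold va
        exact_mod_cast h3 q
      linarith
    unfold ce
    linarith
  have hfin : (κ' : ℝ) * (D₁ + D₂) ≤ κ' * (Real.log U.card + Real.log V.card) :=
    mul_le_mul_of_nonneg_left (by linarith) hκ0
  have e9 : (1 - 2 / Real.log (1 / θ) - τ / θ) = 1 - κ' := by
    rw [hκ']
    ring
  rw [e9] at htwo
  have h9 : ce (U ×ˢ V) (fun s => (Y s.1 * R s.2, wp P (Y s.1))) (fun s => Y s.1) =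
      h (U ×ˢ V) (fun s => ((Y s.1 * R s.2, wp P (Y s.1)), Y s.1)) -
        h (U ×ˢ V) (fun s => (Y s.1 * R s.2, wp P (Y s.1))) := rfl
  rw [h9]
  linarith

lemma card_tu {α : Type*} (k : ℕ) (A : Finset α) : (tu k A).card = A.card ^ k := by
  unfold tu
  rw [Fintype.card_piFinset]
  simp

/-- **The noise.** -/
theorem noise (k N : ℕ) {κ : ℝ} (hκ : 0 < κ) :
    ∃ C : ℝ, 0 < C ∧ ∀ r ≤ N, ∀ A : Finset ℤ, A.Nonempty → (0 : ℤ) ∉ A →
      ∃ P ⊆ pr A, (P.card : ℝ) ≤ C * Real.log A.card ∧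
        ce (tu k A ×ˢ tu r A)
          (fun s => ((∏ i, s.1 i) * ∏ i, s.2 i, wp P (∏ i, s.1 i))) (fun s => ∏ i, s.1 i) ≤
        κ * Real.log A.card + 2 * Real.log 2 := by
  set κ₁ : ℝ := min (κ / (k + N + 1)) 1 with hκ₁
  have hkN : (0 : ℝ) < (k : ℝ) + N + 1 := by positivity
  have hκ₁0 : 0 < κ₁ := lt_min (by positivity) one_pos
  have hκ₁1 : κ₁ ≤ 1 := min_le_right _ _
  have hκ₁2 : κ₁ ≤ κ / (k + N + 1) := min_le_left _ _
  set θ : ℝ := Real.exp (-(4 / κ₁)) with hθ
  have hθ0 : 0 < θ := Real.exp_pos _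
  have h4κ : 4 ≤ 4 / κ₁ := by
    rw [le_div_iff₀ hκ₁0]
    linarith
  have hθ1 : θ ≤ 1 / 3 := by
    have h1 : 3 ≤ Real.exp (4 / κ₁) := by
      have := Real.add_one_le_exp (4 / κ₁)
      linarith
    rw [hθ, Real.exp_neg, ← one_div]
    exact one_div_le_one_div_of_le (by norm_num) h1
  have hlθ : Real.log (1 / θ) = 4 / κ₁ := by
    rw [hθ, one_div, Real.log_inv, Real.log_exp]
    ring
  set τ : ℝ := κ₁ * θ / 2 with hτ
  have hτ0 : 0 < τ := by positivity
  have hsum : 2 / Real.log (1 / θ) + τ / θ = κ₁ := by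
    rw [hlθ, hτ]
    field_simp
    ring
  refine ⟨(k + N + 1) / τ, by positivity, ?_⟩
  intro r hr A hA h0
  have hAc : (1 : ℝ) ≤ A.card := by exact_mod_cast card_pos.2 hA
  have ha0 : 0 ≤ Real.log A.card := Real.log_nonneg hAc
  have hne : ∀ (m : ℕ), ∀ u ∈ tu m A, ∀ i, u i ≠ 0 := fun m u hu i h => h0 (h ▸ mem_tu.1 hu i)
  have hne' : ∀ (m : ℕ), ∀ u ∈ tu m A, (∏ i, u i) ≠ 0 := fun m u hu =>
    prod_ne_zero_iff.2 fun i _ => hne m u hu i
  have hpr : ∀ (m : ℕ), ∀ u ∈ tu m A, ∀ p, p ∉ pr A → fa (∏ i, u i) p = 0 := by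
    intro m u hu p hp
    rw [fa_prod u (hne m u hu)]
    exact sum_eq_zero fun i _ => fa_eq_zero (mem_tu.1 hu i) hp
  obtain ⟨P, hP, hP1, hP2⟩ := noise_gen (tu k A) (tu r A) (tu_nonempty hA) (tu_nonempty hA)
    (fun u => ∏ i, u i) (fun u => ∏ i, u i) (hne' k) (hne' r) (pr A) (hpr k) (hpr r) hτ0 hθ0 hθ1
  have hrN : (r : ℝ) ≤ N := by exact_mod_cast hr
  have hlog : Real.log (tu k A).card + Real.log (tu r A).card = (k + r) * Real.log A.card := by
    rw [card_tu, card_tu]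
    push_cast
    rw [Real.log_pow, Real.log_pow]
    ring
  rw [hlog] at hP1 hP2
  rw [hsum] at hP2
  have h1 : ((k : ℝ) + r) * Real.log A.card ≤ (k + N + 1) * Real.log A.card :=
    mul_le_mul_of_nonneg_right (by linarith) ha0
  refine ⟨P, hP, ?_, ?_⟩
  · rw [div_mul_eq_mul_div, le_div_iff₀ hτ0]
    linarith
  · refine hP2.trans ?_
    have h2 : κ₁ * (((k : ℝ) + r) * Real.log A.card) ≤ κ * Real.log A.card := by
      have h3 : κ₁ * (((k : ℝ) + r) * Real.log A.card) ≤ κ₁ * ((k + N + 1) * Real.log A.card) :=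
        mul_le_mul_of_nonneg_left h1 hκ₁0.le
      have h4 : κ₁ * ((k + N + 1) * Real.log A.card) ≤
          κ / (k + N + 1) * ((k + N + 1) * Real.log A.card) :=
        mul_le_mul_of_nonneg_right hκ₁2 (by positivity)
      have h5 : κ / ((k : ℝ) + N + 1) * ((k + N + 1) * Real.log A.card) = κ * Real.log A.card := by
        field_simp
      linarith
    linarith

end Pool.Agent.T2H12.KO
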