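import Mathlib
import Pool.Agent.T2H12.KN.Scale
import Pool.Agent.T2H12.KO.Growth
import Pool.Agent.T2H12.KO.Noise
import Pool.Agent.T2H12.KO.Fibre
import Pool.Agent.T2H12.KO.Flat

/-!
# The structure of the sets with few products
-/

set_option autoImplicit false

namespace Pool.Agent.T2H12.KO

open Finset
open scoped Classical
open Pool.Agent.Y359.PE Pool.Agent.T2H12.KF Pool.Agent.T2H12.KD Pool.Agent.T2H12.KG
open Pool.Agent.T2H12.KH Pool.Agent.T2H12.KM Pool.Agent.T2H12.KN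

lemma wp_mul' {P : Finset ℕ} {a b : ℤ} (ha : a ≠ 0) (hb : b ≠ 0) :
    wp P (a * b) = wp P a + wp P b := by
  funext p
  simp only [wp, Pool.Agent.Y359.PE.mk, va, Pi.add_apply, fa_mul ha hb]
  split_ifs
  · push_cast
    rfl
  · rfl

lemma log_lin (D E : ℝ) (hE : 0 < E) {c : ℝ} (hc : 0 < c) :
    ∃ a₀ : ℝ, ∀ a : ℝ, a₀ ≤ a → 0 ≤ a → D + 3 * Real.log (E * (a + 1)) ≤ c * a := by
  refine ⟨2 / c * (D + 3 * Real.log E + c / 2 - 3 - 3 * Real.log (c / 6)), fun a ha ha0 => ?_⟩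
  have h1 : Real.log (E * (a + 1)) = Real.log E + Real.log (a + 1) :=
    Real.log_mul hE.ne' (by linarith)
  have h2 : Real.log (c / 6 * (a + 1)) ≤ c / 6 * (a + 1) - 1 :=
    Real.log_le_sub_one_of_pos (by positivity)
  rw [Real.log_mul (by positivity) (by linarith)] at h2
  have h3 : D + 3 * Real.log E + c / 2 - 3 - 3 * Real.log (c / 6) ≤ c / 2 * a := by
    have h4 := mul_le_mul_of_nonneg_left ha (show 0 ≤ c / 2 by positivity)
    have h5 : c / 2 * (2 / c * (D + 3 * Real.log E + c / 2 - 3 - 3 * Real.log (c / 6))) =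
        D + 3 * Real.log E + c / 2 - 3 - 3 * Real.log (c / 6) := by
      field_simp
    rwa [h5] at h4
  rw [h1]
  linarith

/-- **The structure of the sets with few products.** -/
theorem structure6 (k : ℕ) (hk : 1 ≤ k) {η : ℝ} (hη : 0 < η) (hη1 : η ≤ 1) :
    ∃ (N : ℕ) (C a₁ : ℝ), 0 < C ∧ 0 ≤ a₁ ∧ ∀ A : Finset ℤ, A.Nonempty → (0 : ℤ) ∉ A →
      Real.log (pk (k + 1) A).card ≤ (k + 1 - η) * Real.log A.card → a₁ ≤ Real.log A.card →
      ∃ (A' : Finset ℤ) (P : Finset ℕ) (M : ℤ) (γ G : ℤ → ℤ) (p : ℝ), A' ⊆ A ∧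
        (P.card : ℝ) ≤ C * Real.log A.card ∧ M ≠ 0 ∧ Dec P γ G (A'.image fun a => M * a) ∧
        (∀ U ⊆ A'.image fun a => M * a, ce U (gp P) γ ≤ 0) ∧
        (A'.image fun a => M * a).card = A'.card ∧ (0 : ℤ) ∉ A'.image (fun a => M * a) ∧
        0 < p ∧ 1 / p ≤ 16 * (k + 1) / η * ((k + N + 1) * (Real.log A.card + 1)) ∧
        p ^ 2 * A.card ≤ 144 * (A'.card : ℝ) ∧
        p * (((A'.image fun a => M * a).image G).card : ℝ) ≤
          24 * Real.exp ((1 - η / (8 * (k + 1))) * Real.log A.card) := by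
  have hkr : (1 : ℝ) ≤ k := by exact_mod_cast hk
  have hl2 : 0 < Real.log 2 := Real.log_pos (by norm_num)
  set g : ℝ := η / (k + 1) with hg
  have hg0 : 0 < g := by positivity
  have hg1 : g ≤ 1 := by
    rw [hg, div_le_one (by positivity)]
    linarith
  obtain ⟨N, hgrowth⟩ := growth k hk hη (κ := g / 4) (by positivity)
  obtain ⟨C, hC, hnoise⟩ := noise k N (κ := g / 4) (by positivity)
  refine ⟨N, C, max (8 / (g / 4)) (8 * Real.log 2 / g), hC,
    (by positivity : (0 : ℝ) ≤ 8 / (g / 4)).trans (le_max_left _ _), ?_⟩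
  intro A hA h0 hfew ha
  have hne : ∀ a ∈ A, a ≠ 0 := fun a ha h => h0 (h ▸ ha)
  have hAc : (1 : ℝ) ≤ A.card := by exact_mod_cast card_pos.2 hA
  set a := Real.log A.card with had
  have ha0 : 0 ≤ a := Real.log_nonneg hAc
  have ha1 : 8 / (g / 4) ≤ a := (le_max_left _ _).trans ha
  have ha2 : 8 * Real.log 2 ≤ g * a := by
    have := (le_max_right _ _).trans ha
    rw [div_le_iff₀ hg0] at this
    linarith
  obtain ⟨r, hr1, hrN, hgr⟩ := hgrowth A hA h0 hfew
  obtain ⟨P, hPA, hPc, hno⟩ := hnoise r hrN A hA h0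
  have hPp : ∀ p ∈ P, p.Prime := fun p hp => prime_of_mem_pr (hPA hp)
  set Om := tu k A ×ˢ tu r A with hOm
  set T : (Fin k → ℤ) × (Fin r → ℤ) → ℤ := fun s => (∏ i, s.1 i) * ∏ i, s.2 i with hT
  set Y : (Fin k → ℤ) × (Fin r → ℤ) → ℤ := fun s => ∏ i, s.1 i with hY
  have hOmn : Om.Nonempty := (tu_nonempty hA).product (tu_nonempty hA)
  have hch : ce Om T Y = ce Om T (fun s => wp P (Y s)) + ce Om (fun s => (T s, wp P (Y s))) Y := by
    rw [← ce_chain]
    refine le_antisymm ?_ ?_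
    · exact ce_mono _ _ _ _ fun x _ y _ _ hxy => (Prod.mk.inj hxy).2
    · refine ce_mono _ _ _ _ fun x _ y _ _ hxy => ?_
      rw [Prod.mk.injEq]
      exact ⟨congrArg (wp P) hxy, hxy⟩
  have hkey : ce (A ×ˢ Om) (fun s => T s.2) (fun s => s.1 * Y s.2) -
      ce Om T (fun s => wp P (Y s)) ≤ (1 - g / 2) * a + 2 * Real.log 2 := by
    have h1 : ce (A ×ˢ Om) (fun s => T s.2) (fun s => s.1 * Y s.2) - ce Om T Y ≤
        (1 - g + g / 4) * a := hgr
    have h2 : ce Om (fun s => (T s, wp P (Y s))) Y ≤ g / 4 * a + 2 * Real.log 2 := hno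
    linarith
  obtain ⟨B, hBs, hB, hBh⟩ := fibre A Om hA hOmn T (fun s => s.1 * Y s.2) (fun s => wp P (Y s)) hkey
  have hYne : ∀ s ∈ B, Y s ≠ 0 := by
    intro s hs
    have h1 := (mem_product.1 (hBs hs)).1
    exact prod_ne_zero_iff.2 fun i _ h => h0 (h ▸ mem_tu.1 h1 i)
  obtain ⟨A', b, hA', hbB, hbdet, hA'c, hval⟩ := flat A B hA hB Y (wp P)
    (fun x hx s hs => wp_mul' (hne x hx) (hYne s hs)) (κ := g / 4) (by positivity) (by linarith)
    (by rw [← had]; exact ha1) (by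
      rw [← had]
      have h1 : h (A ×ˢ B) (fun q => q.1 * Y q.2) - h B (fun b => wp P (Y b)) ≤
        (1 - g / 2) * a + 2 * Real.log 2 := hBh
      linarith)
  have h0' : (0 : ℤ) ∉ A' := fun h => h0 (hA' h)
  -- make `b` nonzero everywhere
  obtain ⟨M, γ, G, hM, hdec, hce, hc, hz, hG⟩ := scale P hPp A' h0' (fun a => Y (b a))
    (fun a ha => hYne _ (hbB a ha)) (by
      intro x hx x' hx' h
      have h1 : wp P x = wp P x' := wp_eq_iff.2 h
      simp only [hbdet x hx x' hx' h1])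
  set lB := Real.log B.card with hlB
  have hBc : (1 : ℝ) ≤ B.card := by exact_mod_cast card_pos.2 hB
  have hlB0 : 0 ≤ lB := Real.log_nonneg hBc
  have hlBa : lB ≤ (k + N) * a := by
    have h1 : lB ≤ Real.log Om.card :=
      Real.log_le_log (by linarith) (by exact_mod_cast card_le_card hBs)
    have h2 : (Om.card : ℝ) = (A.card : ℝ) ^ (k + r) := by
      rw [hOm, card_product, tu, tu, Fintype.card_piFinset, Fintype.card_piFinset]
      simp only [prod_const, card_univ, Fintype.card_fin]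
      push_cast
      rw [pow_add]
    rw [h2, Real.log_pow] at h1
    refine h1.trans ?_
    have h3 : ((k + r : ℕ) : ℝ) ≤ k + N := by
      push_cast
      have : (r : ℝ) ≤ N := by exact_mod_cast hrN
      linarith
    exact mul_le_mul_of_nonneg_right h3 ha0
  refine ⟨A', P, M, γ, G, g / 4 / (4 * (lB + 1)), hA', hPc, hM, hdec, hce, hc, hz, by positivity,
    ?_, hA'c, ?_⟩
  · have h1 : 1 / (g / 4 / (4 * (lB + 1))) = 16 * (k + 1) / η * (lB + 1) := by
      rw [hg]
      field_simp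
      ring
    rw [h1]
    refine mul_le_mul_of_nonneg_left ?_ (by positivity)
    have h2 : 0 ≤ (k : ℝ) + N := by positivity
    nlinarith
  · have h1 : ((((A'.image fun a => M * a).image G).card : ℕ) : ℝ) ≤
        ((A'.image fun a => a * Y (b a)).card : ℝ) := by exact_mod_cast hG
    have h2 : 0 < g / 4 / (4 * (lB + 1)) := by positivity
    have h3 : 1 - η / (8 * (k + 1)) = 1 - g / 4 / 2 := by
      rw [hg]
      field_simp
      ring
    rw [h3]
    exact (mul_le_mul_of_nonneg_left h1 h2.le).trans hval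

end Pool.Agent.T2H12.KO
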